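import Pool.Agent.Helper238.Region
import Pool.Agent.Helper238.Lin

set_option autoImplicit false

open MeasureTheory Set

namespace Pool.Agent.Helper238.Rob

open Pool.Agent.Helper238

/-- squared Euclidean length -/
def sd (v : E2) : ℝ := v 0 ^ 2 + v 1 ^ 2

theorem norm_sq (v : E2) : ‖v‖ ^ 2 = sd v := by
  rw [EuclideanSpace.norm_sq_eq, Fin.sum_univ_two, sd]
  simp

theorem sd_nonneg (v : E2) : 0 ≤ sd v := by unfold sd; positivity

theorem norm_eq (v : E2) : ‖v‖ = Real.sqrt (sd v) := by
  rw [← norm_sq, Real.sqrt_sq (norm_nonneg _)]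

theorem e2_decomp (v : E2) : v = v 0 • EuclideanSpace.single 0 1 + v 1 • EuclideanSpace.single 1 1 := by
  ext i; fin_cases i <;> simp

/-- the norm of a covector in terms of its values on a basis -/
theorem nsq (L : E2 →L[ℝ] ℝ) (e1 e2 : E2) (h : cr e1 e2 ≠ 0) :
    ‖L‖ ^ 2 = (sd e2 * L e1 ^ 2 + (sd (e1 - e2) - sd e1 - sd e2) * (L e1 * L e2)
      + sd e1 * L e2 ^ 2) / (cr e1 e2) ^ 2 := by
  rw [norm_sq_clm, gdot]
  have h1 : L e1 = e1 0 * L (EuclideanSpace.single 0 1) + e1 1 * L (EuclideanSpace.single 1 1) := by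
    conv_lhs => rw [e2_decomp e1]
    simp
  have h2 : L e2 = e2 0 * L (EuclideanSpace.single 0 1) + e2 1 * L (EuclideanSpace.single 1 1) := by
    conv_lhs => rw [e2_decomp e2]
    simp
  rw [h1, h2, eq_div_iff (pow_ne_zero 2 h)]
  simp only [sd, cr, PiLp.sub_apply]
  ring

/-- cross product as a covector -/
noncomputable def crL (e : E2) : E2 →L[ℝ] ℝ :=
  (e 0) • (EuclideanSpace.proj 1 : E2 →L[ℝ] ℝ) - (e 1) • (EuclideanSpace.proj 0 : E2 →L[ℝ] ℝ)

theorem crL_apply (e v : E2) : crL e v = cr e v := by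
  simp [crL, cr]

/-- barycentric coordinate of the first vertex -/
noncomputable def bl (A B C x : E2) : ℝ := 1 + cr (C - B) (x - A) / cr (B - A) (C - A)

/-- its differential -/
noncomputable def dl (A B C : E2) : E2 →L[ℝ] ℝ := (cr (B - A) (C - A))⁻¹ • crL (C - B)

theorem dl_apply (A B C v : E2) : dl A B C v = cr (C - B) v / cr (B - A) (C - A) := by
  simp [dl, crL_apply]; ring

theorem hasFDerivAt_bl (A B C x : E2) : HasFDerivAt (bl A B C) (dl A B C) x := by
  have h1 : bl A B C = fun x => 1 + dl A B C (x - A) := by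
    ext x; rw [bl, dl_apply]
  rw [h1]
  have h2 : HasFDerivAt (fun x : E2 => dl A B C (x - A)) (dl A B C) x := by
    have := (dl A B C).hasFDerivAt (x := x - A)
    have h3 := this.comp x ((hasFDerivAt_id x).sub_const A)
    rw [ContinuousLinearMap.comp_id] at h3
    exact h3
  exact h2.const_add 1

theorem contDiff_bl (A B C : E2) : ContDiff ℝ (⊤ : ℕ∞) (bl A B C) := by
  have h1 : bl A B C = fun x => 1 + dl A B C (x - A) := by
    ext x; rw [bl, dl_apply]
  rw [h1]
  fun_prop

theorem continuous_bl (A B C : E2) : Continuous (bl A B C) := (contDiff_bl A B C).continuous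

theorem cr_cyc (A B C : E2) : cr (C - B) (A - B) = cr (B - A) (C - A) := by
  simp [cr]; ring

theorem cr_cyc2 (A B C : E2) : cr (A - C) (B - C) = cr (B - A) (C - A) := by
  simp [cr]; ring

theorem cr_flip (A B C : E2) : cr (C - A) (B - A) = - cr (B - A) (C - A) := by
  simp [cr]; ring

section
variable {A B C : E2} (hD : cr (B - A) (C - A) ≠ 0)
include hD

theorem bl_sum (x : E2) : bl A B C x + bl B C A x + bl C A B x = 1 := by
  unfold bl
  rw [cr_cyc A B C, cr_cyc2 A B C]
  field_simp
  simp [cr]; ring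

theorem bl_duffy (u v : ℝ) : bl A B C (bil A (B - A) 0 (C - B) (u, v)) = 1 - u ∧
    bl B C A (bil A (B - A) 0 (C - B) (u, v)) = u * (1 - v) ∧
    bl C A B (bil A (B - A) 0 (C - B) (u, v)) = u * v := by
  unfold bl
  rw [cr_cyc A B C, cr_cyc2 A B C]
  refine ⟨?_, ?_, ?_⟩
  · field_simp
    simp [cr, bil]; ring
  · field_simp
    simp [cr, bil]; ring
  · field_simp
    simp [cr, bil]; ring

theorem dl_vals : dl A B C (B - A) = -1 ∧ dl A B C (C - A) = -1 ∧ dl B C A (B - A) = 1 ∧
    dl B C A (C - A) = 0 ∧ dl C A B (B - A) = 0 ∧ dl C A B (C - A) = 1 := by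
  simp only [dl_apply]
  rw [cr_cyc A B C, cr_cyc2 A B C]
  refine ⟨?_, ?_, ?_, ?_, ?_, ?_⟩
  · rw [div_eq_iff hD]; simp [cr]; ring
  · rw [div_eq_iff hD]; simp [cr]; ring
  · rw [div_eq_iff hD]; simp [cr]; ring
  · rw [div_eq_iff hD]; simp [cr]; ring
  · rw [div_eq_iff hD]; simp [cr]; ring
  · rw [div_eq_iff hD]; simp [cr]

end

/-- normalized integral along a side -/
noncomputable def sI (F : E2 → ℝ) (P Q : E2) : ℝ := ∫ τ in (0:ℝ)..1, F (P + τ • (Q - P))

theorem sI_symm (F : E2 → ℝ) (P Q : E2) : sI F P Q = sI F Q P := by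
  unfold sI
  have h := intervalIntegral.integral_comp_sub_left (fun τ => F (P + τ • (Q - P))) (1:ℝ) (a := 0) (b := 1)
  simp only [sub_zero, sub_self] at h
  rw [← h]
  congr 1; ext τ; congr 1
  rw [sub_smul, one_smul, smul_sub, smul_sub]; abel

theorem sI_nonneg {F : E2 → ℝ} (h : ∀ x, 0 ≤ F x) (P Q : E2) : 0 ≤ sI F P Q :=
  intervalIntegral.integral_nonneg zero_le_one fun _ _ => h _

/-- the basic divergence identity -/
theorem dvg {A B C : E2} (hD : cr (B - A) (C - A) ≠ 0) {F : E2 → ℝ} (hF : ContDiff ℝ 1 F) :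
    ∫ x in tri A B C, fderiv ℝ F x (C - B) = |cr (B - A) (C - A)| * (sI F A C - sI F A B) := by
  have hc := hF.continuous_fderiv (by simp)
  have hcont := hF.continuous
  rw [integral_tri' A B C hD _ (by fun_prop)]
  congr 1
  unfold sI
  rw [← intervalIntegral.integral_sub]
  · congr 1; ext u
    have key : ∀ v : ℝ, HasDerivAt (fun v => F (bil A (B - A) 0 (C - B) (u, v)))
        (u * fderiv ℝ F (bil A (B - A) 0 (C - B) (u, v)) (C - B)) v := by
      intro v
      have h1 : HasDerivAt (fun v : ℝ => bil A (B - A) 0 (C - B) (u, v)) (u • (C - B)) v := by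
        unfold bil
        have h2 : HasDerivAt (fun v : ℝ => u * v) u v := by simpa using (hasDerivAt_id v).const_mul u
        have h3 := h2.smul_const (C - B)
        simpa using h3.const_add (A + u • (B - A))
      have h4 := ((hF.differentiable (by simp)) (bil A (B - A) 0 (C - B) (u, v))).hasFDerivAt.comp_hasDerivAt v h1
      rw [map_smul, smul_eq_mul] at h4
      exact h4
    rw [intervalIntegral.integral_eq_sub_of_hasDerivAt (fun v _ => key v)]
    · congr 2
      · simp only [bil, mul_one, smul_zero, add_zero]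
        rw [add_assoc, ← smul_add]; congr 2; abel
      · simp only [bil, mul_zero, smul_zero, add_zero, zero_smul]
    · apply Continuous.intervalIntegrable
      have := continuous_bil A (B - A) 0 (C - B)
      fun_prop
  · apply Continuous.intervalIntegrable; fun_prop
  · apply Continuous.intervalIntegrable; fun_prop

theorem tri_cyc (A B C : E2) : tri B C A = tri A B C := by
  unfold tri; congr 1; ext x; simp only [mem_insert_iff, mem_singleton_iff]; tauto

theorem tri_cyc2 (A B C : E2) : tri C A B = tri A B C := by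
  unfold tri; congr 1; ext x; simp only [mem_insert_iff, mem_singleton_iff]; tauto

theorem tri_swap (A B C : E2) : tri A C B = tri A B C := by
  unfold tri; congr 1; ext x; simp only [mem_insert_iff, mem_singleton_iff]; tauto

end Pool.Agent.Helper238.Rob
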