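import Pool.Agent.Helper238.Rob.A

set_option autoImplicit false

open MeasureTheory Set

namespace Pool.Agent.Helper238.Rob

open Pool.Agent.Helper238

theorem cB_eq_bl {A B C : E2} (hD : cr (B - A) (C - A) ≠ 0) (x : E2) : cB A B C x = bl B C A x := by
  unfold cB bl
  rw [cr_cyc A B C]
  rw [div_eq_iff hD, add_mul, div_mul_cancel₀ _ hD]
  simp [cr]; ring

theorem cC_eq_bl {A B C : E2} (hD : cr (B - A) (C - A) ≠ 0) (x : E2) : cC A B C x = bl C A B x := by
  unfold cC bl
  rw [cr_cyc2 A B C]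
  rw [div_eq_iff hD, add_mul, div_mul_cancel₀ _ hD]
  simp [cr]; ring

section
variable {A B C : E2} (hD : cr (B - A) (C - A) ≠ 0)
include hD

theorem bary_bl (x : E2) : x = (bl A B C x) • A + (bl B C A x) • B + (bl C A B x) • C := by
  have h := bary' hD (x := x)
  rw [cB_eq_bl hD, cC_eq_bl hD] at h
  have h2 : 1 - bl B C A x - bl C A B x = bl A B C x := by linarith [bl_sum hD x]
  rw [h2] at h
  exact h

theorem mem_tri_bl (x : E2) : x ∈ tri A B C ↔ 0 ≤ bl A B C x ∧ 0 ≤ bl B C A x ∧ 0 ≤ bl C A B x := by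
  rw [mem_tri_iff hD, cB_eq_bl hD, cC_eq_bl hD]
  have := bl_sum hD x
  constructor
  · rintro ⟨h1, h2, h3⟩; exact ⟨by linarith, h1, h2⟩
  · rintro ⟨h1, h2, h3⟩; exact ⟨h2, h3, by linarith⟩

theorem bl_comb (x y z : ℝ) (h : x + y + z = 1) : bl A B C (x • A + y • B + z • C) = x := by
  have hx : x = 1 - y - z := by linarith
  subst hx
  unfold bl
  have : cr (C - B) ((1 - y - z) • A + y • B + z • C - A) = (-(y + z)) * cr (B - A) (C - A) := by
    simp [cr]; ring
  rw [this, mul_div_assoc, div_self hD]; ring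

theorem bl_pos_of_interior {x : E2} (hx : x ∈ interior (tri A B C)) : 0 < bl A B C x := by
  have hx' := interior_subset hx
  have h0 := ((mem_tri_bl hD x).1 hx').1
  rcases h0.eq_or_lt with h | h
  swap
  · exact h
  exfalso
  have hc : Continuous fun t : ℝ => x + t • (x - A) := by fun_prop
  have h1 : ∀ᶠ t in nhds (0:ℝ), x + t • (x - A) ∈ interior (tri A B C) := by
    apply hc.continuousAt.eventually_mem
    simpa using isOpen_interior.mem_nhds hx
  obtain ⟨δ, hδ, hb⟩ := Metric.eventually_nhds_iff.1 h1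
  have h2 := hb (y := δ / 2) (by simp; rw [abs_of_pos hδ]; linarith)
  have h3 := ((mem_tri_bl hD _).1 (interior_subset h2)).1
  have h4 : bl A B C (x + (δ / 2) • (x - A)) = bl A B C x + (δ / 2) * (bl A B C x - 1) := by
    unfold bl
    rw [show cr (C - B) (x + (δ / 2) • (x - A) - A) = (1 + δ / 2) * cr (C - B) (x - A) by
      simp [cr]; ring]
    ring
  rw [h4, ← h] at h3
  linarith

end

theorem interior_tri {A B C : E2} (hD : cr (B - A) (C - A) ≠ 0) :
    interior (tri A B C) = {x | 0 < bl A B C x ∧ 0 < bl B C A x ∧ 0 < bl C A B x} := by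
  apply Subset.antisymm
  · intro x hx
    refine ⟨bl_pos_of_interior hD hx, ?_, ?_⟩
    · refine bl_pos_of_interior (A := B) (B := C) (C := A) (by rw [cr_cyc A B C]; exact hD) ?_
      rw [tri_cyc]; exact hx
    · refine bl_pos_of_interior (A := C) (B := A) (C := B) (by rw [cr_cyc2 A B C]; exact hD) ?_
      rw [tri_cyc2]; exact hx
  · apply interior_maximal
    · rintro x ⟨h1, h2, h3⟩
      exact (mem_tri_bl hD x).2 ⟨h1.le, h2.le, h3.le⟩
    · have c1 := continuous_bl A B C
      have c2 := continuous_bl B C A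
      have c3 := continuous_bl C A B
      exact (isOpen_lt continuous_const c1).inter ((isOpen_lt continuous_const c2).inter
        (isOpen_lt continuous_const c3))

/-- centroid lies in the interior -/
theorem interior_tri_nonempty {A B C : E2} (hD : cr (B - A) (C - A) ≠ 0) :
    (interior (tri A B C)).Nonempty := by
  refine ⟨(1/3 : ℝ) • A + (1/3 : ℝ) • B + (1/3 : ℝ) • C, ?_⟩
  rw [interior_tri hD]
  refine ⟨?_, ?_, ?_⟩
  · rw [bl_comb hD _ _ _ (by norm_num)]; norm_num
  · have h := bl_comb (A := B) (B := C) (C := A) (by rw [cr_cyc A B C]; exact hD) (1/3) (1/3) (1/3) (by norm_num)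
    have e : (1/3 : ℝ) • A + (1/3 : ℝ) • B + (1/3 : ℝ) • C = (1/3 : ℝ) • B + (1/3 : ℝ) • C + (1/3 : ℝ) • A := by abel
    rw [e, h]; norm_num
  · have h := bl_comb (A := C) (B := A) (C := B) (by rw [cr_cyc2 A B C]; exact hD) (1/3) (1/3) (1/3) (by norm_num)
    have e : (1/3 : ℝ) • A + (1/3 : ℝ) • B + (1/3 : ℝ) • C = (1/3 : ℝ) • C + (1/3 : ℝ) • A + (1/3 : ℝ) • B := by abel
    rw [e, h]; norm_num

theorem mem_segment_bl {A B C : E2} (hD : cr (B - A) (C - A) ≠ 0) (x : E2) :
    x ∈ segment ℝ B C ↔ bl A B C x = 0 ∧ 0 ≤ bl B C A x ∧ 0 ≤ bl C A B x := by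
  constructor
  · rintro ⟨s, t, hs, ht, hst, rfl⟩
    have hB : cr (C - B) (A - B) ≠ 0 := by rw [cr_cyc A B C]; exact hD
    have hC : cr (A - C) (B - C) ≠ 0 := by rw [cr_cyc2 A B C]; exact hD
    have e1 := bl_comb hD 0 s t (by linarith)
    have e2 := bl_comb (A := B) (B := C) (C := A) hB s t 0 (by linarith)
    have e3 := bl_comb (A := C) (B := A) (C := B) hC t 0 s (by linarith)
    simp only [zero_smul, zero_add, add_zero] at e1 e2 e3
    rw [add_comm (t • C)] at e3
    rw [e1, e2, e3]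
    exact ⟨rfl, hs, ht⟩
  · rintro ⟨h1, h2, h3⟩
    have hs := bl_sum hD x
    refine ⟨bl B C A x, bl C A B x, h2, h3, by linarith, ?_⟩
    conv_rhs => rw [bary_bl hD x]
    rw [h1]; simp

theorem frontier_otri {A B C : E2} (hD : cr (B - A) (C - A) ≠ 0) :
    frontier (interior (tri A B C)) = segment ℝ A B ∪ (segment ℝ B C ∪ segment ℝ C A) := by
  have hB : cr (C - B) (A - B) ≠ 0 := by rw [cr_cyc A B C]; exact hD
  have hC : cr (A - C) (B - C) ≠ 0 := by rw [cr_cyc2 A B C]; exact hD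
  rw [isOpen_interior.frontier_eq,
    (convex_tri A B C).closure_interior_eq_closure_of_nonempty_interior (interior_tri_nonempty hD),
    (isCompact_tri A B C).isClosed.closure_eq]
  ext x
  rw [mem_sdiff, interior_tri hD, mem_tri_bl hD]
  simp only [mem_union, mem_segment_bl hD, mem_segment_bl (A := B) (B := C) (C := A) hB,
    mem_segment_bl (A := C) (B := A) (C := B) hC, Set.mem_ofPred_eq]
  constructor
  · rintro ⟨⟨h1, h2, h3⟩, h4⟩
    by_cases k1 : 0 < bl A B C x
    · by_cases k2 : 0 < bl B C A x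
      · have k3 : ¬ 0 < bl C A B x := fun k3 => h4 ⟨k1, k2, k3⟩
        left
        exact ⟨by linarith, h1, h2⟩
      · right; right
        exact ⟨by linarith, h3, h1⟩
    · right; left
      exact ⟨by linarith, h2, h3⟩
  · rintro (⟨h1, h2, h3⟩ | ⟨h1, h2, h3⟩ | ⟨h1, h2, h3⟩)
    · exact ⟨⟨h2, h3, h1.ge⟩, fun h => by linarith [h.2.2]⟩
    · exact ⟨⟨h1.ge, h2, h3⟩, fun h => by linarith [h.1]⟩
    · exact ⟨⟨h3, h1.ge, h2⟩, fun h => by linarith [h.2.1]⟩

end Pool.Agent.Helper238.Rob
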