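import Pool.Agent.Helper238.Rob.B

set_option autoImplicit false

open MeasureTheory Set

namespace Pool.Agent.Helper238.Rob

open Pool.Agent.Helper238

/-- one dimensional Hausdorff measure of the plane -/
noncomputable abbrev H1 : Measure E2 := Measure.hausdorffMeasure 1

theorem H1_singleton (x : E2) : H1 {x} = 0 := by
  have := Measure.nullSingletonClass_hausdorff E2 (d := 1) one_pos
  exact measure_singleton x

theorem H1_segment (P Q : E2) : H1 (segment ℝ P Q) = edist P Q := hausdorffMeasure_segment P Q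

theorem isCompact_seg (P Q : E2) : IsCompact (segment ℝ P Q) := by
  rw [segment_eq_image_lineMap]
  exact isCompact_Icc.image AffineMap.lineMap_continuous

theorem integrableOn_segment {F : E2 → ℝ} (hF : Continuous F) (P Q : E2) :
    IntegrableOn F (segment ℝ P Q) H1 := by
  obtain ⟨M, hM⟩ := (isCompact_seg P Q).exists_bound_of_continuousOn hF.continuousOn
  refine Measure.integrableOn_of_bounded (M := M) ?_ hF.aestronglyMeasurable ?_
  · rw [H1_segment]; exact edist_ne_top _ _
  · exact (ae_restrict_iff' (isCompact_seg P Q).isClosed.measurableSet).2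
      (Filter.Eventually.of_forall fun x hx => hM x hx)

theorem integral_segment {F : E2 → ℝ} {P Q : E2} (hPQ : P ≠ Q) :
    ∫ x in segment ℝ P Q, F x ∂H1 = dist P Q * sI F P Q := by
  obtain ⟨d, hd⟩ : ∃ d, d = dist P Q := ⟨_, rfl⟩
  have hd0 : 0 < d := by rw [hd]; exact dist_pos.2 hPQ
  have hn : ‖Q - P‖ = d := by rw [hd, dist_eq_norm, norm_sub_rev]
  obtain ⟨e, he⟩ : ∃ e, e = d⁻¹ • (Q - P) := ⟨_, rfl⟩
  have hen : ‖e‖ = 1 := by
    rw [he, norm_smul, hn, norm_inv, Real.norm_eq_abs, abs_of_pos hd0, inv_mul_cancel₀ hd0.ne']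
  have hiso : Isometry (fun τ : ℝ => P + τ • e) := by
    apply Isometry.of_dist_eq
    intro x y
    rw [dist_add_left, dist_eq_norm, ← sub_smul, norm_smul, hen, mul_one, Real.dist_eq,
      Real.norm_eq_abs]
  have hmap := hiso.map_hausdorffMeasure (d := 1) (Or.inl zero_le_one)
  rw [hausdorffMeasure_real] at hmap
  have hseg : segment ℝ P Q = (fun τ : ℝ => P + τ • e) '' Icc 0 d := by
    rw [segment_eq_image']
    ext x
    constructor
    · rintro ⟨θ, hθ, rfl⟩
      refine ⟨θ * d, ⟨mul_nonneg hθ.1 hd0.le, by nlinarith [hθ.2]⟩, ?_⟩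
      simp only [he, smul_smul]
      rw [mul_assoc, mul_inv_cancel₀ hd0.ne', mul_one]
    · rintro ⟨τ, hτ, rfl⟩
      refine ⟨τ / d, ⟨div_nonneg hτ.1 hd0.le, (div_le_one hd0).2 hτ.2⟩, ?_⟩
      simp only [he, smul_smul]
      rfl
  have hemb : MeasurableEmbedding (fun τ : ℝ => P + τ • e) :=
    hiso.isClosedEmbedding.measurableEmbedding
  have h1 : ∫ x in segment ℝ P Q, F x ∂H1 = ∫ x in segment ℝ P Q, F x ∂(Measure.map (fun τ : ℝ => P + τ • e) volume) := by
    rw [hmap]
    rw [Measure.restrict_restrict (isCompact_seg P Q).isClosed.measurableSet]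
    have : segment ℝ P Q ∩ range (fun τ : ℝ => P + τ • e) = segment ℝ P Q := by
      rw [inter_eq_left, hseg]; exact image_subset_range _ _
    rw [this]
  rw [h1, hemb.setIntegral_map]
  have hpre : (fun τ : ℝ => P + τ • e) ⁻¹' (segment ℝ P Q) = Icc 0 d := by
    rw [hseg, preimage_image_eq _ hiso.injective]
  rw [hpre, integral_Icc_eq_integral_Ioc, ← intervalIntegral.integral_of_le hd0.le]
  unfold sI
  have h2 := intervalIntegral.mul_integral_comp_mul_left (f := fun τ => F (P + τ • e)) (c := d) (a := 0) (b := 1)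
  rw [mul_zero, mul_one] at h2
  rw [← h2, hd]
  congr 2
  ext τ
  congr 2
  rw [he, smul_smul, ← hd, mul_comm d τ, mul_assoc, mul_inv_cancel₀ hd0.ne', mul_one]

theorem inter_null {A B C : E2} (hD : cr (B - A) (C - A) ≠ 0) :
    H1 (segment ℝ A B ∩ (segment ℝ B C ∪ segment ℝ C A)) = 0 ∧
    H1 (segment ℝ B C ∩ segment ℝ C A) = 0 := by
  have hB : cr (C - B) (A - B) ≠ 0 := by rw [cr_cyc A B C]; exact hD
  have hC : cr (A - C) (B - C) ≠ 0 := by rw [cr_cyc2 A B C]; exact hD
  constructor
  · refine measure_mono_null (t := {A} ∪ {B}) ?_ (measure_union_null (H1_singleton A) (H1_singleton B))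
    rintro x ⟨h1, h2 | h2⟩
    · rw [mem_segment_bl (A := C) (B := A) (C := B) hC] at h1
      rw [mem_segment_bl hD] at h2
      right
      rw [mem_singleton_iff, bary_bl hD x, h1.1, h2.1]
      have := bl_sum hD x
      rw [h1.1, h2.1] at this
      have h3 : bl B C A x = 1 := by linarith
      rw [h3]; simp
    · rw [mem_segment_bl (A := C) (B := A) (C := B) hC] at h1
      rw [mem_segment_bl (A := B) (B := C) (C := A) hB] at h2
      left
      rw [mem_singleton_iff, bary_bl hD x, h1.1, h2.1]
      have := bl_sum hD x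
      rw [h1.1, h2.1] at this
      have h3 : bl A B C x = 1 := by linarith
      rw [h3]; simp
  · refine measure_mono_null (t := {C}) ?_ (H1_singleton C)
    rintro x ⟨h1, h2⟩
    rw [mem_segment_bl hD] at h1
    rw [mem_segment_bl (A := B) (B := C) (C := A) hB] at h2
    rw [mem_singleton_iff, bary_bl hD x, h1.1, h2.1]
    have := bl_sum hD x
    rw [h1.1, h2.1] at this
    have h3 : bl C A B x = 1 := by linarith
    rw [h3]; simp

theorem ne_of_cr {A B C : E2} (hD : cr (B - A) (C - A) ≠ 0) : A ≠ B := by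
  rintro rfl
  apply hD; simp [cr]

/-- the boundary integral of a triangle -/
theorem integral_frontier {A B C : E2} (hD : cr (B - A) (C - A) ≠ 0) {F : E2 → ℝ} (hF : Continuous F) :
    ∫ x in frontier (interior (tri A B C)), F x ∂H1
      = dist A B * sI F A B + dist B C * sI F B C + dist C A * sI F C A := by
  have hB : cr (C - B) (A - B) ≠ 0 := by rw [cr_cyc A B C]; exact hD
  have hC : cr (A - C) (B - C) ≠ 0 := by rw [cr_cyc2 A B C]; exact hD
  obtain ⟨n1, n2⟩ := inter_null hD
  rw [frontier_otri hD]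
  rw [setIntegral_union₀ (μ := H1) n1 _ (integrableOn_segment hF A B)
    ((integrableOn_segment hF B C).union (integrableOn_segment hF C A)),
    setIntegral_union₀ (μ := H1) n2 (isCompact_seg C A).isClosed.measurableSet.nullMeasurableSet
      (integrableOn_segment hF B C) (integrableOn_segment hF C A),
    integral_segment (ne_of_cr hD), integral_segment (ne_of_cr hB), integral_segment (ne_of_cr hC)]
  · ring
  · exact ((isCompact_seg B C).isClosed.union (isCompact_seg C A).isClosed).measurableSet.nullMeasurableSet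

end Pool.Agent.Helper238.Rob
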