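import Pool.Agent.Helper238.Rob.C

set_option autoImplicit false

open MeasureTheory Set

namespace Pool.Agent.Helper238.Rob

open Pool.Agent.Helper238

/-- first Robin eigenvalue -/
noncomputable def lam1 (Ω : Set E2) (α : ℝ) : ℝ :=
  sInf {r : ℝ | ∃ u : E2 → ℝ, ContDiff ℝ 1 u ∧ (∫ x in Ω, u x ^ 2) ≠ 0 ∧
    r = ((∫ x in Ω, ‖fderiv ℝ u x‖ ^ 2) + α * ∫ x in frontier Ω, u x ^ 2 ∂H1) / ∫ x in Ω, u x ^ 2}

theorem otri_ae (A B C : E2) : (interior (tri A B C) : Set E2) =ᵐ[volume] tri A B C := by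
  rw [ae_eq_set]
  constructor
  · rw [sdiff_eq_empty.2 interior_subset]; simp
  · have h1 : tri A B C \ interior (tri A B C) = frontier (tri A B C) :=
      ((isCompact_tri A B C).isClosed.frontier_eq).symm
    rw [h1]
    exact (convex_tri A B C).addHaar_frontier volume

theorem int_otri (A B C : E2) (f : E2 → ℝ) :
    ∫ x in interior (tri A B C), f x = ∫ x in tri A B C, f x := setIntegral_congr_set (otri_ae A B C)

/-- boundary functional -/
noncomputable def bI (A B C : E2) (F : E2 → ℝ) : ℝ :=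
  dist A B * sI F A B + dist B C * sI F B C + dist C A * sI F C A

theorem intT {A B C : E2} {f : E2 → ℝ} (hf : Continuous f) : IntegrableOn f (tri A B C) :=
  hf.continuousOn.integrableOn_compact (isCompact_tri A B C)

theorem sI_line (A B : E2) (τ : ℝ) (hτ : τ ∈ Icc (0:ℝ) 1) : A + τ • (B - A) ∈ segment ℝ A B := by
  rw [segment_eq_image']
  exact ⟨τ, hτ, rfl⟩

theorem sI_congr {F G : E2 → ℝ} {P Q : E2} (h : ∀ x ∈ segment ℝ P Q, F x = G x) : sI F P Q = sI G P Q := by
  unfold sI
  apply intervalIntegral.integral_congr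
  intro τ hτ
  rw [uIcc_of_le zero_le_one] at hτ
  exact h _ (sI_line P Q τ hτ)

theorem sI_add {F G : E2 → ℝ} (hF : Continuous F) (hG : Continuous G) (P Q : E2) :
    sI (fun x => F x + G x) P Q = sI F P Q + sI G P Q := by
  unfold sI
  rw [intervalIntegral.integral_add]
  · apply Continuous.intervalIntegrable; fun_prop
  · apply Continuous.intervalIntegrable; fun_prop

/-- trace identity -/
theorem trace_id {A B C : E2} (hD : cr (B - A) (C - A) ≠ 0) {u : E2 → ℝ} (hu : ContDiff ℝ 1 u) :
    |cr (B - A) (C - A)| * sI (fun x => u x ^ 2) A B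
      = ∫ x in tri A B C, (2 * u x ^ 2 + 2 * u x * (bl A B C x * fderiv ℝ u x (A - C)
        + bl B C A x * fderiv ℝ u x (B - C))) := by
  have hB : cr (C - B) (A - B) ≠ 0 := by rw [cr_cyc A B C]; exact hD
  have hC : cr (A - C) (B - C) ≠ 0 := by rw [cr_cyc2 A B C]; exact hD
  have hcu := hu.continuous
  have hcf := hu.continuous_fderiv (by simp)
  have c1 := continuous_bl A B C
  have c2 := continuous_bl B C A
  have cd1 : ContDiff ℝ 1 (bl A B C) := (contDiff_bl A B C).of_le (by exact_mod_cast le_top)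
  have cd2 : ContDiff ℝ 1 (bl B C A) := (contDiff_bl B C A).of_le (by exact_mod_cast le_top)
  have hF1 : ContDiff ℝ 1 (fun x => u x ^ 2 * bl A B C x) := (hu.pow 2).mul cd1
  have hF2 : ContDiff ℝ 1 (fun x => u x ^ 2 * bl B C A x) := (hu.pow 2).mul cd2
  have d1 := dvg (A := B) (B := C) (C := A) hB hF1
  have d2 := dvg hD hF2
  rw [cr_cyc A B C, tri_cyc] at d1
  have z1 : sI (fun x => u x ^ 2 * bl A B C x) B C = 0 := by
    rw [sI_congr (G := fun _ => 0)]
    · simp [sI]
    · intro x hx
      rw [((mem_segment_bl hD x).1 hx).1, mul_zero]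
  have z2 : sI (fun x => u x ^ 2 * bl B C A x) A C = 0 := by
    rw [sI_symm, sI_congr (G := fun _ => 0)]
    · simp [sI]
    · intro x hx
      rw [((mem_segment_bl (A := B) (B := C) (C := A) hB x).1 hx).1, mul_zero]
  rw [z1, sub_zero, sI_symm] at d1
  rw [z2, zero_sub] at d2
  have e3 : sI (fun x => u x ^ 2) A B = sI (fun x => u x ^ 2 * bl A B C x) A B
      + sI (fun x => u x ^ 2 * bl B C A x) A B := by
    rw [← sI_add (by fun_prop) (by fun_prop)]
    apply sI_congr
    intro x hx
    have h1 := ((mem_segment_bl (A := C) (B := A) (C := B) hC x).1 hx).1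
    have h2 := bl_sum hD x
    rw [h1] at h2
    have h3 : bl A B C x + bl B C A x = 1 := by linarith
    rw [← mul_add, h3, mul_one]
  obtain ⟨v1, v2, v3, v4, v5, v6⟩ := dl_vals hD
  have k1 : ∀ x, fderiv ℝ (fun x => u x ^ 2 * bl A B C x) x (A - C)
      = u x ^ 2 + 2 * u x * (bl A B C x * fderiv ℝ u x (A - C)) := by
    intro x
    have h1 : HasFDerivAt u (fderiv ℝ u x) x := (hu.differentiable (by simp) x).hasFDerivAt
    have h2 := ((h1.pow 2).mul (hasFDerivAt_bl A B C x)).fderiv
    have h3 : dl A B C (A - C) = 1 := by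
      rw [← neg_sub C A, map_neg, v2, neg_neg]
    have h4 : fderiv ℝ (fun x => u x ^ 2 * bl A B C x) x = _ := h2
    rw [h4]
    simp only [ContinuousLinearMap.add_apply, ContinuousLinearMap.smul_apply, smul_eq_mul, h3]
    simp
    ring
  have k2 : ∀ x, fderiv ℝ (fun x => u x ^ 2 * bl B C A x) x (C - B)
      = -(u x ^ 2 + 2 * u x * (bl B C A x * fderiv ℝ u x (B - C))) := by
    intro x
    have h1 : HasFDerivAt u (fderiv ℝ u x) x := (hu.differentiable (by simp) x).hasFDerivAt
    have h2 := ((h1.pow 2).mul (hasFDerivAt_bl B C A x)).fderiv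
    have h3 : dl B C A (C - B) = -1 := by
      have : C - B = (C - A) - (B - A) := by abel
      rw [this, map_sub, v3, v4]; norm_num
    have h4 : fderiv ℝ (fun x => u x ^ 2 * bl B C A x) x = _ := h2
    have h5 : fderiv ℝ u x (C - B) = - fderiv ℝ u x (B - C) := by rw [← neg_sub B C, map_neg]
    rw [h4]
    simp only [ContinuousLinearMap.add_apply, ContinuousLinearMap.smul_apply, smul_eq_mul, h3, h5]
    simp
    ring
  simp_rw [k1] at d1
  simp_rw [k2] at d2
  rw [integral_neg] at d2
  rw [e3, mul_add]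
  rw [← d1]
  have d2' : |cr (B - A) (C - A)| * sI (fun x => u x ^ 2 * bl B C A x) A B
      = ∫ x in tri A B C, (u x ^ 2 + 2 * u x * (bl B C A x * fderiv ℝ u x (B - C))) := by linarith
  rw [d2', ← integral_add (intT (by fun_prop)) (intT (by fun_prop))]
  congr 1; ext x; ring

end Pool.Agent.Helper238.Rob
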