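import Pool.Agent.Helper238.Rob.D

set_option autoImplicit false

open MeasureTheory Set

namespace Pool.Agent.Helper238.Rob

open Pool.Agent.Helper238

theorem trace_ineq {A B C : E2} (hD : cr (B - A) (C - A) ≠ 0) {u : E2 → ℝ} (hu : ContDiff ℝ 1 u)
    {M ε : ℝ} (hM : ‖A - C‖ + ‖B - C‖ ≤ M) (hε : 0 < ε) :
    |cr (B - A) (C - A)| * sI (fun x => u x ^ 2) A B
      ≤ (2 + M ^ 2 / ε) * (∫ x in tri A B C, u x ^ 2) + ε * ∫ x in tri A B C, ‖fderiv ℝ u x‖ ^ 2 := by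
  have hcu := hu.continuous
  have hcf := hu.continuous_fderiv (by simp)
  have c1 := continuous_bl A B C
  have c2 := continuous_bl B C A
  rw [trace_id hD hu, ← integral_const_mul, ← integral_const_mul,
    ← integral_add (intT (by fun_prop)) (intT (by fun_prop))]
  apply setIntegral_mono_on (intT (by fun_prop)) (intT (by fun_prop))
    (isCompact_tri A B C).isClosed.measurableSet
  intro x hx
  obtain ⟨h1, h2, h3⟩ := (mem_tri_bl hD x).1 hx
  have hs := bl_sum hD x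
  have l1 : bl A B C x ≤ 1 := by linarith
  have l2 : bl B C A x ≤ 1 := by linarith
  obtain ⟨N, hN⟩ : ∃ N, N = ‖fderiv ℝ u x‖ := ⟨_, rfl⟩
  have hN0 : 0 ≤ N := by rw [hN]; exact norm_nonneg _
  have hM0 : 0 ≤ M := le_trans (by positivity) hM
  have b1 : |fderiv ℝ u x (A - C)| ≤ N * ‖A - C‖ := by
    rw [hN, ← Real.norm_eq_abs]; exact (fderiv ℝ u x).le_opNorm _
  have b2 : |fderiv ℝ u x (B - C)| ≤ N * ‖B - C‖ := by
    rw [hN, ← Real.norm_eq_abs]; exact (fderiv ℝ u x).le_opNorm _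
  have b3 : |bl A B C x * fderiv ℝ u x (A - C) + bl B C A x * fderiv ℝ u x (B - C)| ≤ N * M := by
    calc _ ≤ |bl A B C x * fderiv ℝ u x (A - C)| + |bl B C A x * fderiv ℝ u x (B - C)| := abs_add_le _ _
      _ = bl A B C x * |fderiv ℝ u x (A - C)| + bl B C A x * |fderiv ℝ u x (B - C)| := by
          rw [abs_mul, abs_mul, abs_of_nonneg h1, abs_of_nonneg h2]
      _ ≤ 1 * |fderiv ℝ u x (A - C)| + 1 * |fderiv ℝ u x (B - C)| := by gcongr
      _ ≤ N * ‖A - C‖ + N * ‖B - C‖ := by linarith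
      _ = N * (‖A - C‖ + ‖B - C‖) := by ring
      _ ≤ N * M := by gcongr
  have b4 : 2 * u x * (bl A B C x * fderiv ℝ u x (A - C) + bl B C A x * fderiv ℝ u x (B - C))
      ≤ 2 * |u x| * (N * M) := by
    calc _ ≤ |2 * u x * (bl A B C x * fderiv ℝ u x (A - C) + bl B C A x * fderiv ℝ u x (B - C))| := le_abs_self _
      _ = 2 * |u x| * |bl A B C x * fderiv ℝ u x (A - C) + bl B C A x * fderiv ℝ u x (B - C)| := by
          rw [abs_mul, abs_mul]; norm_num
      _ ≤ _ := by gcongr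
  have b5 : 2 * |u x| * (N * M) ≤ M ^ 2 / ε * u x ^ 2 + ε * N ^ 2 := by
    have e : M ^ 2 / ε * u x ^ 2 + ε * N ^ 2 - 2 * |u x| * (N * M) = (M * |u x| - ε * N) ^ 2 / ε := by
      rw [← sq_abs (u x)]
      field_simp
      ring
    have : 0 ≤ (M * |u x| - ε * N) ^ 2 / ε := by positivity
    linarith
  rw [← hN]
  linarith

/-- the boundary functional is controlled by the Dirichlet energy and the mass -/
theorem bI_bound {A B C : E2} (hD : cr (B - A) (C - A) ≠ 0) (t : ℝ) (ht : 0 < t) :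
    ∃ K : ℝ, ∀ u : E2 → ℝ, ContDiff ℝ 1 u →
      t * bI A B C (fun x => u x ^ 2) ≤ K * (∫ x in tri A B C, u x ^ 2)
        + ∫ x in tri A B C, ‖fderiv ℝ u x‖ ^ 2 := by
  have hB : cr (C - B) (A - B) ≠ 0 := by rw [cr_cyc A B C]; exact hD
  have hC : cr (A - C) (B - C) ≠ 0 := by rw [cr_cyc2 A B C]; exact hD
  obtain ⟨D, hDD⟩ : ∃ D, D = |cr (B - A) (C - A)| := ⟨_, rfl⟩
  have hD0 : 0 < D := by rw [hDD]; exact abs_pos.2 hD
  obtain ⟨P, hP⟩ : ∃ P, P = dist A B + dist B C + dist C A := ⟨_, rfl⟩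
  have hP0 : 0 < P := by
    have := dist_pos.2 (ne_of_cr hD)
    rw [hP]; positivity
  obtain ⟨ε, hε⟩ : ∃ ε, ε = D / (t * P) := ⟨_, rfl⟩
  have hε0 : 0 < ε := by rw [hε]; positivity
  refine ⟨t * P / D * (2 + P ^ 2 / ε), fun u hu => ?_⟩
  have t1 := trace_ineq hD hu (M := P) (ε := ε) (by
    rw [← dist_eq_norm, ← dist_eq_norm, dist_comm A C, hP]; linarith [dist_nonneg (x := A) (y := B)]) hε0
  have t2 := trace_ineq (A := B) (B := C) (C := A) hB hu (M := P) (ε := ε) (by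
    rw [← dist_eq_norm, ← dist_eq_norm, dist_comm B A, hP]; linarith [dist_nonneg (x := B) (y := C)]) hε0
  have t3 := trace_ineq (A := C) (B := A) (C := B) hC hu (M := P) (ε := ε) (by
    rw [← dist_eq_norm, ← dist_eq_norm, dist_comm C B, hP]; linarith [dist_nonneg (x := C) (y := A)]) hε0
  rw [cr_cyc A B C, tri_cyc A B C] at t2
  rw [cr_cyc2 A B C, tri_cyc2 A B C] at t3
  rw [← hDD] at t1 t2 t3
  obtain ⟨m, hm⟩ : ∃ m, m = ∫ x in tri A B C, u x ^ 2 := ⟨_, rfl⟩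
  obtain ⟨g, hg⟩ : ∃ g, g = ∫ x in tri A B C, ‖fderiv ℝ u x‖ ^ 2 := ⟨_, rfl⟩
  rw [← hm, ← hg] at t1 t2 t3 ⊢
  have e : t * bI A B C (fun x => u x ^ 2) = t / D * (dist A B * (D * sI (fun x => u x ^ 2) A B)
      + dist B C * (D * sI (fun x => u x ^ 2) B C) + dist C A * (D * sI (fun x => u x ^ 2) C A)) := by
    unfold bI; field_simp
  rw [e]
  have f1 := mul_le_mul_of_nonneg_left t1 (dist_nonneg (x := A) (y := B))
  have f2 := mul_le_mul_of_nonneg_left t2 (dist_nonneg (x := B) (y := C))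
  have f3 := mul_le_mul_of_nonneg_left t3 (dist_nonneg (x := C) (y := A))
  have f4 : dist A B * (D * sI (fun x => u x ^ 2) A B)
      + dist B C * (D * sI (fun x => u x ^ 2) B C) + dist C A * (D * sI (fun x => u x ^ 2) C A)
      ≤ P * ((2 + P ^ 2 / ε) * m + ε * g) := by rw [hP] at *; linarith
  calc _ ≤ t / D * (P * ((2 + P ^ 2 / ε) * m + ε * g)) := by gcongr
    _ = t * P / D * (2 + P ^ 2 / ε) * m + t * P / D * ε * g := by ring
    _ = _ := by
      have : t * P / D * ε = 1 := by rw [hε]; field_simp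
      rw [this]; ring

theorem lam1_set_bdd {A B C : E2} (hD : cr (B - A) (C - A) ≠ 0) {α : ℝ} (hα : α < 0) :
    BddBelow {r : ℝ | ∃ u : E2 → ℝ, ContDiff ℝ 1 u ∧ (∫ x in interior (tri A B C), u x ^ 2) ≠ 0 ∧
      r = ((∫ x in interior (tri A B C), ‖fderiv ℝ u x‖ ^ 2)
        + α * ∫ x in frontier (interior (tri A B C)), u x ^ 2 ∂H1)
          / ∫ x in interior (tri A B C), u x ^ 2} := by
  obtain ⟨K, hK⟩ := bI_bound hD (-α) (by linarith)
  refine ⟨-K, ?_⟩
  rintro r ⟨u, hu, hne, rfl⟩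
  have hcu := hu.continuous
  rw [int_otri] at hne
  rw [int_otri, int_otri, integral_frontier hD (by fun_prop)]
  have h1 := hK u hu
  have hpos : 0 < ∫ x in tri A B C, u x ^ 2 :=
    lt_of_le_of_ne (integral_nonneg fun _ => sq_nonneg _) (Ne.symm hne)
  rw [le_div_iff₀ hpos]
  unfold bI at h1
  linarith

theorem lam1_le {A B C : E2} (hD : cr (B - A) (C - A) ≠ 0) {α κ2 : ℝ} (hα : α < 0) {u : E2 → ℝ}
    (hu : ContDiff ℝ 1 u) (hpos : 0 < ∫ x in tri A B C, u x ^ 2)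
    (h : (∫ x in tri A B C, ‖fderiv ℝ u x‖ ^ 2) + κ2 * (∫ x in tri A B C, u x ^ 2)
      + α * bI A B C (fun x => u x ^ 2) ≤ 0) :
    lam1 (interior (tri A B C)) α ≤ -κ2 := by
  have hcu := hu.continuous
  refine (csInf_le (lam1_set_bdd hD hα) ⟨u, hu, ?_, rfl⟩).trans ?_
  · rw [int_otri]; exact hpos.ne'
  · rw [int_otri, int_otri, integral_frontier hD (by fun_prop), div_le_iff₀ hpos]
    unfold bI at h
    linarith

theorem le_lam1 {A B C : E2} (hD : cr (B - A) (C - A) ≠ 0) {α κ2 : ℝ}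
    (h : ∀ u : E2 → ℝ, ContDiff ℝ 1 u → 0 ≤ (∫ x in tri A B C, ‖fderiv ℝ u x‖ ^ 2)
      + κ2 * (∫ x in tri A B C, u x ^ 2) + α * bI A B C (fun x => u x ^ 2)) :
    -κ2 ≤ lam1 (interior (tri A B C)) α := by
  apply le_csInf
  · refine ⟨_, fun _ => 1, contDiff_const, ?_, rfl⟩
    rw [int_otri]
    simp only [one_pow]
    rw [area_tri A B C hD]
    have := abs_pos.2 hD
    positivity
  · rintro r ⟨u, hu, hne, rfl⟩
    have hcu := hu.continuous
    rw [int_otri] at hne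
    rw [int_otri, int_otri, integral_frontier hD (by fun_prop)]
    have hpos : 0 < ∫ x in tri A B C, u x ^ 2 :=
      lt_of_le_of_ne (integral_nonneg fun _ => sq_nonneg _) (Ne.symm hne)
    rw [le_div_iff₀ hpos]
    have h1 := h u hu
    unfold bI at h1
    linarith

end Pool.Agent.Helper238.Rob
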