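import Mathlib

set_option autoImplicit false

open Real

namespace Pool.Agent.Helper238.Rob

/-- parameters of the ground state of the equilateral triangle -/
structure Par where
  s : ℝ
  x : ℝ
  y : ℝ
  s_pos : 0 < s
  s_lt : s < 1 / 2
  hx : sinh x = s * cosh x
  hy : sinh y = 2 * s * cosh y
  x_pos : 0 < x
  y_pos : 0 < y

namespace Par
variable (P : Par)

noncomputable def k : ℝ := 2 * (P.x + P.y)
noncomputable def z : ℝ := P.s ^ 2
noncomputable def a : ℝ := 1 - P.z
noncomputable def b : ℝ := 1 - 4 * P.z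
noncomputable def w : ℝ := P.k * P.b / (3 * P.s)

theorem k_pos : 0 < P.k := by have := P.x_pos; have := P.y_pos; unfold k; linarith
theorem z_pos : 0 < P.z := by have := P.s_pos; unfold z; positivity
theorem z_lt : P.z < 1 / 4 := by have := P.s_pos; have := P.s_lt; unfold z; nlinarith
theorem b_pos : 0 < P.b := by have := P.z_lt; unfold b; linarith
theorem a_pos : 0 < P.a := by have := P.z_lt; unfold a; linarith
theorem w_pos : 0 < P.w := by
  have := P.k_pos; have := P.b_pos; have := P.s_pos; unfold w; positivity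

theorem k_eq : P.k = 3 * P.s * P.w / P.b := by
  have := P.b_pos; have := P.s_pos
  unfold w; field_simp

theorem z_eq : P.z = P.s ^ 2 := rfl

theorem cx2 : cosh P.x ^ 2 * P.a = 1 := by
  have h := cosh_sq P.x
  rw [P.hx] at h
  unfold a z; linear_combination h

theorem cy2 : cosh P.y ^ 2 * P.b = 1 := by
  have h := cosh_sq P.y
  rw [P.hy] at h
  unfold b z; linear_combination h

theorem cosh_2y : cosh (P.k - 2 * P.x) = (1 + 4 * P.z) / P.b := by
  have hb := P.b_pos
  have h : P.k - 2 * P.x = 2 * P.y := by unfold k; ring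
  rw [h, cosh_two_mul, P.hy, eq_div_iff hb.ne']
  have := P.cy2
  unfold z
  linear_combination (1 + 4 * P.s ^ 2) * this

theorem sinh_2y : sinh (P.k - 2 * P.x) = 4 * P.s / P.b := by
  have hb := P.b_pos
  have h : P.k - 2 * P.x = 2 * P.y := by unfold k; ring
  rw [h, sinh_two_mul, P.hy, eq_div_iff hb.ne']
  have := P.cy2
  linear_combination (4 * P.s) * this

theorem cosh_kx : cosh (P.k - P.x) = cosh P.x * (1 + 8 * P.z) / P.b := by
  have hb := P.b_pos
  have h : P.k - P.x = P.x + (P.k - 2 * P.x) := by ring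
  rw [h, cosh_add, P.cosh_2y, P.sinh_2y, P.hx]
  unfold z
  ring

theorem sinh_kx : sinh (P.k - P.x) = cosh P.x * (P.s * (5 + 4 * P.z)) / P.b := by
  have hb := P.b_pos
  have h : P.k - P.x = P.x + (P.k - 2 * P.x) := by ring
  rw [h, sinh_add, P.cosh_2y, P.sinh_2y, P.hx]
  unfold z
  ring

theorem cosh_2x : cosh (2 * P.x) = (1 + P.z) / P.a := by
  have ha := P.a_pos
  rw [cosh_two_mul, P.hx, eq_div_iff ha.ne']
  have := P.cx2
  unfold z
  linear_combination (1 + P.s ^ 2) * this

theorem sinh_2x : sinh (2 * P.x) = 2 * P.s / P.a := by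
  have ha := P.a_pos
  rw [sinh_two_mul, P.hx, eq_div_iff ha.ne']
  have := P.cx2
  linear_combination (2 * P.s) * this

theorem cosh_k : cosh P.k = 1 + 18 * P.z / (P.a * P.b) := by
  have ha := P.a_pos
  have hb := P.b_pos
  have h : P.k = 2 * P.x + (P.k - 2 * P.x) := by ring
  rw [h, cosh_add, P.cosh_2y, P.sinh_2y, P.cosh_2x, P.sinh_2x]
  field_simp
  unfold a b z
  ring

theorem sinh_k : sinh P.k = 6 * P.s * (1 + 2 * P.z) / (P.a * P.b) := by
  have ha := P.a_pos
  have hb := P.b_pos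
  have h : P.k = 2 * P.x + (P.k - 2 * P.x) := by ring
  rw [h, sinh_add, P.cosh_2y, P.sinh_2y, P.cosh_2x, P.sinh_2x]
  field_simp
  unfold z
  ring

theorem cosh_2k2x : cosh (2 * P.k - 2 * P.x) = 2 * (cosh P.x * (1 + 8 * P.z) / P.b) ^ 2 - 1 := by
  have h : 2 * P.k - 2 * P.x = 2 * (P.k - P.x) := by ring
  rw [h, cosh_two_mul, ← P.cosh_kx]
  have := cosh_sq (P.k - P.x)
  linear_combination -this

/-- boundary identity for the ground state -/
theorem side_id (τ : ℝ) :
    sinh (P.k * τ - P.x) + sinh (P.k * (1 - τ) - P.x) + 2 * sinh P.x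
      = 2 * P.s * (cosh (P.k * τ - P.x) + cosh (P.k * (1 - τ) - P.x) + cosh P.x) := by
  obtain ⟨θ, hθ⟩ : ∃ θ, θ = P.k * τ - (P.x + P.y) := ⟨_, rfl⟩
  have h1 : P.k * τ - P.x = P.y + θ := by rw [hθ]; ring
  have h2 : P.k * (1 - τ) - P.x = P.y - θ := by rw [hθ]; unfold k; ring
  rw [h1, h2, sinh_add, sinh_sub, cosh_add, cosh_sub, P.hx, P.hy]
  ring

end Par
end Pool.Agent.Helper238.Rob
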