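import Pool.Agent.Helper238.Rob.E
import Pool.Agent.Helper238.Rob.F

set_option autoImplicit false

open MeasureTheory Set

namespace Pool.Agent.Helper238.Rob

open Pool.Agent.Helper238

/-- shifted hyperbolic functions of an affine coordinate -/
noncomputable def ch (P : Par) (t : ℝ) : ℝ := Real.cosh (P.k * t - P.x)
noncomputable def sh (P : Par) (t : ℝ) : ℝ := Real.sinh (P.k * t - P.x)

theorem continuous_ch (P : Par) : Continuous (ch P) := by unfold ch; fun_prop
theorem continuous_sh (P : Par) : Continuous (sh P) := by unfold sh; fun_prop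

theorem ch_pos (P : Par) (t : ℝ) : 0 < ch P t := Real.cosh_pos _

theorem hasDerivAt_ch (P : Par) (t : ℝ) : HasDerivAt (ch P) (P.k * sh P t) t := by
  unfold ch sh
  have h1 : HasDerivAt (fun t : ℝ => P.k * t - P.x) P.k t := by
    simpa using ((hasDerivAt_id t).const_mul P.k).sub_const P.x
  have h2 := h1.cosh
  rw [mul_comm]; exact h2

theorem hasDerivAt_sh (P : Par) (t : ℝ) : HasDerivAt (sh P) (P.k * ch P t) t := by
  unfold ch sh
  have h1 : HasDerivAt (fun t : ℝ => P.k * t - P.x) P.k t := by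
    simpa using ((hasDerivAt_id t).const_mul P.k).sub_const P.x
  have h2 := h1.sinh
  rw [mul_comm]; exact h2

theorem contDiff_ch (P : Par) : ContDiff ℝ (⊤ : ℕ∞) (ch P) := by unfold ch; fun_prop
theorem contDiff_sh (P : Par) : ContDiff ℝ (⊤ : ℕ∞) (sh P) := by unfold sh; fun_prop

theorem ch_side (P : Par) (τ : ℝ) : sh P τ + sh P (1 - τ) - 2 * sh P 0
    = 2 * P.s * (ch P τ + ch P (1 - τ) + ch P 0) := by
  have h := P.side_id τ
  have e1 : sh P 0 = - Real.sinh P.x := by unfold sh; rw [mul_zero, zero_sub, Real.sinh_neg]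
  have e2 : ch P 0 = Real.cosh P.x := by unfold ch; rw [mul_zero, zero_sub, Real.cosh_neg]
  rw [e1, e2]; unfold ch sh; linarith

section
variable (P : Par) (A B C : E2)

noncomputable def gU (x : E2) : ℝ := ch P (bl A B C x) + ch P (bl B C A x) + ch P (bl C A B x)
noncomputable def gV1 (x : E2) : ℝ := sh P (bl A B C x) - sh P (bl C A B x)
noncomputable def gV2 (x : E2) : ℝ := sh P (bl B C A x) - sh P (bl C A B x)

theorem gU_pos (x : E2) : 0 < gU P A B C x := by
  unfold gU; have := ch_pos P (bl A B C x); have := ch_pos P (bl B C A x)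
  have := ch_pos P (bl C A B x); positivity

theorem contDiff_gU : ContDiff ℝ 1 (gU P A B C) := by
  have h1 := (contDiff_ch P).comp (contDiff_bl A B C)
  have h2 := (contDiff_ch P).comp (contDiff_bl B C A)
  have h3 := (contDiff_ch P).comp (contDiff_bl C A B)
  exact ((h1.add h2).add h3).of_le (by exact_mod_cast le_top)

theorem contDiff_gV1 : ContDiff ℝ 1 (gV1 P A B C) := by
  have h1 := (contDiff_sh P).comp (contDiff_bl A B C)
  have h3 := (contDiff_sh P).comp (contDiff_bl C A B)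
  exact (h1.sub h3).of_le (by exact_mod_cast le_top)

theorem contDiff_gV2 : ContDiff ℝ 1 (gV2 P A B C) := by
  have h1 := (contDiff_sh P).comp (contDiff_bl B C A)
  have h3 := (contDiff_sh P).comp (contDiff_bl C A B)
  exact (h1.sub h3).of_le (by exact_mod_cast le_top)

theorem fd_ch (x : E2) : HasFDerivAt (fun x => ch P (bl A B C x)) ((P.k * sh P (bl A B C x)) • dl A B C) x :=
  (hasDerivAt_ch P _).comp_hasFDerivAt x (hasFDerivAt_bl A B C x)

theorem fd_sh (x : E2) : HasFDerivAt (fun x => sh P (bl A B C x)) ((P.k * ch P (bl A B C x)) • dl A B C) x :=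
  (hasDerivAt_sh P _).comp_hasFDerivAt x (hasFDerivAt_bl A B C x)

end

theorem dl_dirs {A B C : E2} (hD : cr (B - A) (C - A) ≠ 0) :
    dl A B C (A - C) = 1 ∧ dl B C A (A - C) = 0 ∧ dl C A B (A - C) = -1 ∧
    dl A B C (B - C) = 0 ∧ dl B C A (B - C) = 1 ∧ dl C A B (B - C) = -1 := by
  obtain ⟨v1, v2, v3, v4, v5, v6⟩ := dl_vals hD
  have e1 : A - C = -(C - A) := by abel
  have e2 : B - C = (B - A) - (C - A) := by abel
  refine ⟨?_, ?_, ?_, ?_, ?_, ?_⟩
  · rw [e1, map_neg, v2]; norm_num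
  · rw [e1, map_neg, v4]; norm_num
  · rw [e1, map_neg, v6]
  · rw [e2, map_sub, v1, v2]; norm_num
  · rw [e2, map_sub, v3, v4]; norm_num
  · rw [e2, map_sub, v5, v6]; norm_num

theorem lower {A B C : E2} (hD : cr (B - A) (C - A) ≠ 0) (P : Par) {l : ℝ}
    (hAB : dist A B = l) (hBC : dist B C = l) (hCA : dist C A = l) {u : E2 → ℝ} (hu : ContDiff ℝ 1 u) :
    0 ≤ (∫ x in tri A B C, ‖fderiv ℝ u x‖ ^ 2)
      + (P.k * l / |cr (B - A) (C - A)|) ^ 2 * (∫ x in tri A B C, u x ^ 2)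
      + (-(P.k * P.s * l / |cr (B - A) (C - A)|)) * bI A B C (fun x => u x ^ 2) := by
  have hB : cr (C - B) (A - B) ≠ 0 := by rw [cr_cyc A B C]; exact hD
  have hC : cr (A - C) (B - C) ≠ 0 := by rw [cr_cyc2 A B C]; exact hD
  have hcu := hu.continuous
  have hcf := hu.continuous_fderiv (by simp)
  obtain ⟨m1, m2, m3, m4, m5, m6⟩ := dl_dirs hD
  obtain ⟨F, hF⟩ : ∃ F : E2 → ℝ, F = fun x => u x ^ 2 * (gV1 P A B C x - gV2 P A B C x / 2) * (gU P A B C x)⁻¹ := ⟨_, rfl⟩
  obtain ⟨G, hG⟩ : ∃ G : E2 → ℝ, G = fun x => u x ^ 2 * (gV2 P A B C x - gV1 P A B C x / 2) * (gU P A B C x)⁻¹ := ⟨_, rfl⟩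
  have cU := contDiff_gU P A B C
  have cV1 := contDiff_gV1 P A B C
  have cV2 := contDiff_gV2 P A B C
  have cUi : ContDiff ℝ 1 fun x => (gU P A B C x)⁻¹ := cU.inv fun x => (gU_pos P A B C x).ne'
  have cF : ContDiff ℝ 1 F := by
    rw [hF]; exact ((hu.pow 2).mul (cV1.sub (cV2.div_const 2))).mul cUi
  have cG : ContDiff ℝ 1 G := by
    rw [hG]; exact ((hu.pow 2).mul (cV2.sub (cV1.div_const 2))).mul cUi
  have d1 := dvg (A := B) (B := C) (C := A) hB cF
  have d2 := dvg hD cG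
  rw [cr_cyc A B C, tri_cyc] at d1
  -- sides
  have sAB : sI F B A + sI G A B = P.s * sI (fun x => u x ^ 2) A B := by
    rw [sI_symm F B A, ← sI_add cF.continuous cG.continuous]
    have : P.s * sI (fun x => u x ^ 2) A B = sI (fun x => P.s * u x ^ 2) A B := by
      unfold sI; rw [intervalIntegral.integral_const_mul]
    rw [this]
    apply sI_congr
    intro x hx
    have h1 := ((mem_segment_bl (A := C) (B := A) (C := B) hC x).1 hx).1
    have h2 := bl_sum hD x
    rw [h1] at h2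
    have h3 : bl B C A x = 1 - bl A B C x := by linarith
    have hs := ch_side P (bl A B C x)
    have hp := gU_pos P A B C x
    rw [hF, hG]
    simp only [gV1, gV2, gU, h1, h3] at hp ⊢
    obtain ⟨W, hW⟩ : ∃ W, W = ch P (bl A B C x) + ch P (1 - bl A B C x) + ch P 0 := ⟨_, rfl⟩
    rw [← hW] at hs hp ⊢
    have hW0 : W ≠ 0 := hp.ne'
    field_simp
    linear_combination (u x ^ 2) * hs
  have sBC : sI F B C = - (P.s * sI (fun x => u x ^ 2) B C) := by
    have : -(P.s * sI (fun x => u x ^ 2) B C) = sI (fun x => -P.s * u x ^ 2) B C := by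
      unfold sI; rw [intervalIntegral.integral_const_mul]; ring
    rw [this]
    apply sI_congr
    intro x hx
    have h1 := ((mem_segment_bl hD x).1 hx).1
    have h2 := bl_sum hD x
    rw [h1] at h2
    have h3 : bl C A B x = 1 - bl B C A x := by linarith
    have hs := ch_side P (bl B C A x)
    have hp := gU_pos P A B C x
    rw [hF]
    simp only [gV1, gV2, gU, h1, h3] at hp ⊢
    obtain ⟨W, hW⟩ : ∃ W, W = ch P 0 + ch P (bl B C A x) + ch P (1 - bl B C A x) := ⟨_, rfl⟩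
    have hs' : sh P (bl B C A x) + sh P (1 - bl B C A x) - 2 * sh P 0 = 2 * P.s * W := by rw [hs, hW]; ring
    rw [← hW] at hp ⊢
    have hW0 : W ≠ 0 := hp.ne'
    field_simp
    linear_combination (-(u x ^ 2)) * hs'
  have sAC : sI G A C = - (P.s * sI (fun x => u x ^ 2) C A) := by
    rw [sI_symm]
    have : -(P.s * sI (fun x => u x ^ 2) C A) = sI (fun x => -P.s * u x ^ 2) C A := by
      unfold sI; rw [intervalIntegral.integral_const_mul]; ring
    rw [this]
    apply sI_congr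
    intro x hx
    have h1 := ((mem_segment_bl (A := B) (B := C) (C := A) hB x).1 hx).1
    have h2 := bl_sum hD x
    rw [h1] at h2
    have h3 : bl C A B x = 1 - bl A B C x := by linarith
    have hs := ch_side P (bl A B C x)
    have hp := gU_pos P A B C x
    rw [hG]
    simp only [gV1, gV2, gU, h1, h3] at hp ⊢
    obtain ⟨W, hW⟩ : ∃ W, W = ch P (bl A B C x) + ch P 0 + ch P (1 - bl A B C x) := ⟨_, rfl⟩
    have hs' : sh P (bl A B C x) + sh P (1 - bl A B C x) - 2 * sh P 0 = 2 * P.s * W := by rw [hs, hW]; ring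
    rw [← hW] at hp ⊢
    have hW0 : W ≠ 0 := hp.ne'
    field_simp
    linear_combination (-(u x ^ 2)) * hs'
  -- pointwise derivatives
  have pF : ∀ x, fderiv ℝ F x (A - C) = (2 * u x * fderiv ℝ u x (A - C)) * (gV1 P A B C x - gV2 P A B C x / 2) * (gU P A B C x)⁻¹
      + u x ^ 2 * (P.k * (ch P (bl A B C x) + ch P (bl C A B x)) - P.k * ch P (bl C A B x) / 2) * (gU P A B C x)⁻¹
      - u x ^ 2 * (gV1 P A B C x - gV2 P A B C x / 2) * ((gU P A B C x ^ 2)⁻¹ * (P.k * gV1 P A B C x)) := by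
    intro x
    have h1 : HasFDerivAt u (fderiv ℝ u x) x := (hu.differentiable (by simp) x).hasFDerivAt
    have hA := fd_sh P A B C x
    have hB' := fd_sh P B C A x
    have hC' := fd_sh P C A B x
    have cA := fd_ch P A B C x
    have cB' := fd_ch P B C A x
    have cC' := fd_ch P C A B x
    have hV1 := hA.sub hC'
    have hV2 := hB'.sub hC'
    have hUf := (cA.add cB').add cC'
    have hUi := (hasDerivAt_inv (gU_pos P A B C x).ne').comp_hasFDerivAt x hUf
    have hh := (((h1.pow 2).mul (hV1.sub (hV2.mul_const (2:ℝ)⁻¹))).mul hUi).fderiv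
    have e : F = fun x => u x ^ 2 * ((sh P (bl A B C x) - sh P (bl C A B x)) - (sh P (bl B C A x) - sh P (bl C A B x)) * (2:ℝ)⁻¹) * ((ch P (bl A B C x) + ch P (bl B C A x) + ch P (bl C A B x)))⁻¹ := by
      rw [hF]; ext y; simp only [gV1, gV2, gU]; ring
    have h4 := (congrArg (fun f => fderiv ℝ f x) e).trans hh
    rw [h4]
    simp [m1, m2, m3, gV1, gV2, gU]
    ring
  have pG : ∀ x, fderiv ℝ G x (C - B) = -((2 * u x * fderiv ℝ u x (B - C)) * (gV2 P A B C x - gV1 P A B C x / 2) * (gU P A B C x)⁻¹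
      + u x ^ 2 * (P.k * (ch P (bl B C A x) + ch P (bl C A B x)) - P.k * ch P (bl C A B x) / 2) * (gU P A B C x)⁻¹
      - u x ^ 2 * (gV2 P A B C x - gV1 P A B C x / 2) * ((gU P A B C x ^ 2)⁻¹ * (P.k * gV2 P A B C x))) := by
    intro x
    have h1 : HasFDerivAt u (fderiv ℝ u x) x := (hu.differentiable (by simp) x).hasFDerivAt
    have hA := fd_sh P A B C x
    have hB' := fd_sh P B C A x
    have hC' := fd_sh P C A B x
    have cA := fd_ch P A B C x
    have cB' := fd_ch P B C A x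
    have cC' := fd_ch P C A B x
    have hV1 := hA.sub hC'
    have hV2 := hB'.sub hC'
    have hUf := (cA.add cB').add cC'
    have hUi := (hasDerivAt_inv (gU_pos P A B C x).ne').comp_hasFDerivAt x hUf
    have hh := (((h1.pow 2).mul (hV2.sub (hV1.mul_const (2:ℝ)⁻¹))).mul hUi).fderiv
    have e : G = fun x => u x ^ 2 * ((sh P (bl B C A x) - sh P (bl C A B x)) - (sh P (bl A B C x) - sh P (bl C A B x)) * (2:ℝ)⁻¹) * ((ch P (bl A B C x) + ch P (bl B C A x) + ch P (bl C A B x)))⁻¹ := by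
      rw [hG]; ext y; simp only [gV1, gV2, gU]; ring
    have h4 := (congrArg (fun f => fderiv ℝ f x) e).trans hh
    rw [← neg_sub B C, map_neg, h4, neg_inj]
    simp [m4, m5, m6, gV1, gV2, gU]
    ring
  obtain ⟨D, hDD⟩ : ∃ D, D = |cr (B - A) (C - A)| := ⟨_, rfl⟩
  have hD0 : 0 < D := by rw [hDD]; exact abs_pos.2 hD
  have hD2 : cr (B - A) (C - A) ^ 2 = D ^ 2 := by rw [hDD, sq_abs]
  rw [← hDD] at d1 d2 ⊢
  have l1 : sd (B - C) = l ^ 2 := by rw [← norm_sq, ← dist_eq_norm, hBC]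
  have l2 : sd (A - C) = l ^ 2 := by rw [← norm_sq, ← dist_eq_norm, dist_comm, hCA]
  have l3 : sd (A - C - (B - C)) = l ^ 2 := by
    rw [sub_sub_sub_cancel_right, ← norm_sq, ← dist_eq_norm, hAB]
  have key : ∀ x, (l ^ 2 * P.k / D ^ 2) * (fderiv ℝ F x (A - C) - fderiv ℝ G x (C - B))
      ≤ ‖fderiv ℝ u x‖ ^ 2 + (P.k * l / D) ^ 2 * u x ^ 2 := by
    intro x
    rw [nsq (fderiv ℝ u x) (A - C) (B - C) hC, l1, l2, l3, cr_cyc2 A B C, hD2, pF, pG]
    obtain ⟨U, hU⟩ : ∃ U, U = gU P A B C x := ⟨_, rfl⟩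
    obtain ⟨V1, hV1⟩ : ∃ V1, V1 = gV1 P A B C x := ⟨_, rfl⟩
    obtain ⟨V2, hV2⟩ : ∃ V2, V2 = gV2 P A B C x := ⟨_, rfl⟩
    have hU0 : 0 < U := by rw [hU]; exact gU_pos P A B C x
    have hUe : ch P (bl A B C x) = U - ch P (bl B C A x) - ch P (bl C A B x) := by
      rw [hU]; unfold gU; ring
    rw [← hU, ← hV1, ← hV2, hUe]
    generalize ch P (bl B C A x) = c2
    generalize ch P (bl C A B x) = c3
    generalize fderiv ℝ u x (A - C) = u1
    generalize fderiv ℝ u x (B - C) = u2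
    generalize u x = v
    obtain ⟨p, hp⟩ : ∃ p, p = u1 - P.k * v * V1 / U := ⟨_, rfl⟩
    obtain ⟨q, hq⟩ : ∃ q, q = u2 - P.k * v * V2 / U := ⟨_, rfl⟩
    have h0 : 0 ≤ (l ^ 2 / D ^ 2) * (p ^ 2 - p * q + q ^ 2) := by
      have : 0 ≤ p ^ 2 - p * q + q ^ 2 := by nlinarith [sq_nonneg (p - q), sq_nonneg (p + q)]
      positivity
    have h1 : (l ^ 2 * u1 ^ 2 + (l ^ 2 - l ^ 2 - l ^ 2) * (u1 * u2) + l ^ 2 * u2 ^ 2) / D ^ 2
        + (P.k * l / D) ^ 2 * v ^ 2 - (l ^ 2 * P.k / D ^ 2) *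
        ((2 * v * u1) * (V1 - V2 / 2) * U⁻¹
          + v ^ 2 * (P.k * (U - c2 - c3 + c3) - P.k * c3 / 2) * U⁻¹
          - v ^ 2 * (V1 - V2 / 2) * ((U ^ 2)⁻¹ * (P.k * V1))
          - -((2 * v * u2) * (V2 - V1 / 2) * U⁻¹
          + v ^ 2 * (P.k * (c2 + c3) - P.k * c3 / 2) * U⁻¹
          - v ^ 2 * (V2 - V1 / 2) * ((U ^ 2)⁻¹ * (P.k * V2))))
        = (l ^ 2 / D ^ 2) * (p ^ 2 - p * q + q ^ 2) := by
      rw [hp, hq]
      field_simp
      ring
    linarith
  have cF1 := cF.continuous_fderiv (by simp)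
  have cG1 := cG.continuous_fderiv (by simp)
  have hint : (l ^ 2 * P.k / D ^ 2) * ((∫ x in tri A B C, fderiv ℝ F x (A - C)) - ∫ x in tri A B C, fderiv ℝ G x (C - B))
      ≤ (∫ x in tri A B C, ‖fderiv ℝ u x‖ ^ 2) + (P.k * l / D) ^ 2 * ∫ x in tri A B C, u x ^ 2 := by
    rw [← integral_sub (intT (by fun_prop)) (intT (by fun_prop)), ← integral_const_mul,
      ← integral_const_mul, ← integral_add (intT (by fun_prop)) (intT (by fun_prop))]
    exact integral_mono (intT (by fun_prop)) (intT (by fun_prop)) key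
  rw [d1, d2] at hint
  have hsum : D * (sI F B A - sI F B C) - D * (sI G A C - sI G A B)
      = D * P.s * (sI (fun x => u x ^ 2) A B + sI (fun x => u x ^ 2) B C + sI (fun x => u x ^ 2) C A) := by
    rw [sBC, sAC]
    linear_combination D * sAB
  rw [hsum] at hint
  have hb : bI A B C (fun x => u x ^ 2) = l * (sI (fun x => u x ^ 2) A B + sI (fun x => u x ^ 2) B C
      + sI (fun x => u x ^ 2) C A) := by
    unfold bI; rw [hAB, hBC, hCA]; ring
  rw [hb]
  have e : (l ^ 2 * P.k / D ^ 2) * (D * P.s * (sI (fun x => u x ^ 2) A B + sI (fun x => u x ^ 2) B C + sI (fun x => u x ^ 2) C A))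
      = (P.k * P.s * l / D) * (l * (sI (fun x => u x ^ 2) A B + sI (fun x => u x ^ 2) B C
      + sI (fun x => u x ^ 2) C A)) := by
    field_simp
  rw [e] at hint
  linarith

end Pool.Agent.Helper238.Rob
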