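import Pool.Agent.Helper238.Rob.G

set_option autoImplicit false

open MeasureTheory Set

namespace Pool.Agent.Helper238.Rob

open Pool.Agent.Helper238

theorem tri_int1 {A B C : E2} (hD : cr (B - A) (C - A) ≠ 0) {f : ℝ → ℝ} (hf : Continuous f) :
    ∫ x in tri A B C, f (bl A B C x) = |cr (B - A) (C - A)| * ∫ u in (0:ℝ)..1, u * f (1 - u) := by
  have c1 := continuous_bl A B C
  rw [integral_tri' A B C hD _ (by fun_prop)]
  congr 1
  congr 1; ext u
  simp_rw [(bl_duffy hD u _).1]
  simp

theorem tri_int2 {A B C : E2} (hD : cr (B - A) (C - A) ≠ 0) {f : ℝ → ℝ} (hf : Continuous f) :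
    ∫ x in tri A B C, f (bl B C A x - bl C A B x)
      = |cr (B - A) (C - A)| * ∫ u in (0:ℝ)..1, ∫ v in (0:ℝ)..1, u * f (u * (1 - 2 * v)) := by
  have c1 := continuous_bl B C A
  have c2 := continuous_bl C A B
  rw [integral_tri' A B C hD _ (by fun_prop)]
  congr 1
  congr 1; ext u
  congr 1; ext v
  rw [(bl_duffy hD u v).2.1, (bl_duffy hD u v).2.2]
  congr 2; ring

/-- one dimensional moments -/
theorem int_u_cosh (c p : ℝ) (hp : p ≠ 0) :
    ∫ u in (0:ℝ)..1, u * Real.cosh (c - p * u)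
      = -Real.sinh (c - p) / p + (Real.cosh c - Real.cosh (c - p)) / p ^ 2 := by
  have h : ∀ u : ℝ, HasDerivAt (fun u => -(u * Real.sinh (c - p * u)) / p - Real.cosh (c - p * u) / p ^ 2)
      (u * Real.cosh (c - p * u)) u := by
    intro u
    have h1 : HasDerivAt (fun u : ℝ => c - p * u) (-p) u := by
      simpa using ((hasDerivAt_id u).const_mul p).const_sub c
    have h2 := ((((hasDerivAt_id u).mul h1.sinh).neg).div_const p).sub (h1.cosh.div_const (p ^ 2))
    refine h2.congr_deriv ?_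
    simp
    field_simp
    ring
  rw [intervalIntegral.integral_eq_sub_of_hasDerivAt (fun u _ => h u)]
  · simp
    field_simp
    ring
  · apply Continuous.intervalIntegrable; fun_prop

theorem int_K3 (k : ℝ) (hk : k ≠ 0) :
    ∫ u in (0:ℝ)..1, ∫ v in (0:ℝ)..1, u * Real.cosh (k * (u * (1 - 2 * v)))
      = (Real.cosh k - 1) / k ^ 2 := by
  have h1 : ∀ u : ℝ, ∫ v in (0:ℝ)..1, u * Real.cosh (k * (u * (1 - 2 * v))) = Real.sinh (k * u) / k := by
    intro u
    have h : ∀ v : ℝ, HasDerivAt (fun v => -Real.sinh (k * (u * (1 - 2 * v))) / (2 * k))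
        (u * Real.cosh (k * (u * (1 - 2 * v)))) v := by
      intro v
      have h1 : HasDerivAt (fun v : ℝ => k * (u * (1 - 2 * v))) (k * (u * (-2))) v := by
        have := (((hasDerivAt_id v).const_mul 2).const_sub 1).const_mul u
        simpa using this.const_mul k
      have h2 := (h1.sinh.neg).div_const (2 * k)
      refine h2.congr_deriv ?_
      field_simp
    rw [intervalIntegral.integral_eq_sub_of_hasDerivAt (fun u _ => h u)]
    · have e1 : k * (u * (1 - 2 * 1)) = -(k * u) := by ring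
      have e2 : k * (u * (1 - 2 * 0)) = k * u := by ring
      rw [e1, e2, Real.sinh_neg]
      field_simp
      ring
    · apply Continuous.intervalIntegrable; fun_prop
  simp_rw [h1]
  have h : ∀ u : ℝ, HasDerivAt (fun u => Real.cosh (k * u) / k ^ 2) (Real.sinh (k * u) / k) u := by
    intro u
    have h1 : HasDerivAt (fun u : ℝ => k * u) k u := by simpa using (hasDerivAt_id u).const_mul k
    refine (h1.cosh.div_const (k ^ 2)).congr_deriv ?_
    field_simp
  rw [intervalIntegral.integral_eq_sub_of_hasDerivAt (fun u _ => h u)]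
  · simp; ring
  · apply Continuous.intervalIntegrable; fun_prop

section
variable {A B C : E2} (hD : cr (B - A) (C - A) ≠ 0) (P : Par)
include hD

theorem K1_int : ∫ x in tri A B C, Real.cosh (2 * (P.k * bl A B C x - P.x))
    = |cr (B - A) (C - A)| * (4 * (1 + 2 * P.z) / (3 * P.a * P.w ^ 2) + P.b / (3 * P.a * P.w)) := by
  have hk := P.k_pos
  have hb := P.b_pos
  have ha := P.a_pos
  have hw := P.w_pos
  have hs := P.s_pos
  rw [tri_int1 hD (f := fun t => Real.cosh (2 * (P.k * t - P.x))) (by fun_prop)]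
  congr 1
  have e : ∀ u : ℝ, 2 * (P.k * (1 - u) - P.x) = (2 * P.k - 2 * P.x) - (2 * P.k) * u := by intro u; ring
  simp_rw [e]
  rw [int_u_cosh _ _ (by positivity)]
  have e1 : 2 * P.k - 2 * P.x - 2 * P.k = -(2 * P.x) := by ring
  rw [e1, Real.sinh_neg, Real.cosh_neg, P.cosh_2k2x, P.cosh_2x, P.sinh_2x]
  have hc := P.cx2
  have e2 : (2 * (Real.cosh P.x * (1 + 8 * P.z) / P.b) ^ 2 - 1) = 2 * (1 + 8 * P.z) ^ 2 / (P.a * P.b ^ 2) - 1 := by
    have : Real.cosh P.x ^ 2 = 1 / P.a := by field_simp; exact hc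
    rw [div_pow, mul_pow, this]; field_simp
  rw [e2, P.k_eq]
  have hz : P.z = P.s ^ 2 := rfl
  have hz2 : P.a = 1 - P.s ^ 2 := rfl
  have hz3 : P.b = 1 - 4 * P.s ^ 2 := rfl
  field_simp
  rw [hz3, hz2, hz]
  ring

theorem K2_int : ∫ x in tri A B C, Real.cosh (P.k * (1 - bl A B C x) - 2 * P.x)
    = |cr (B - A) (C - A)| * (4 / (3 * P.w) - 2 * P.b / (3 * P.a * P.w ^ 2)) := by
  have hk := P.k_pos
  have hb := P.b_pos
  have ha := P.a_pos
  have hw := P.w_pos
  have hs := P.s_pos
  rw [tri_int1 hD (f := fun t => Real.cosh (P.k * (1 - t) - 2 * P.x)) (by fun_prop)]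
  congr 1
  have e : ∀ u : ℝ, Real.cosh (P.k * (1 - (1 - u)) - 2 * P.x) = Real.cosh (2 * P.x - P.k * u) := by
    intro u; rw [← Real.cosh_neg]; congr 1; ring
  simp_rw [e]
  rw [int_u_cosh _ _ (by positivity)]
  have e1 : 2 * P.x - P.k = -(P.k - 2 * P.x) := by ring
  rw [e1, Real.sinh_neg, Real.cosh_neg, P.cosh_2y, P.sinh_2y, P.cosh_2x]
  rw [P.k_eq]
  have hz : P.z = P.s ^ 2 := rfl
  have hz2 : P.a = 1 - P.s ^ 2 := rfl
  have hz3 : P.b = 1 - 4 * P.s ^ 2 := rfl
  field_simp
  rw [hz3, hz2, hz]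
  ring

theorem K3_int : ∫ x in tri A B C, Real.cosh (P.k * (bl B C A x - bl C A B x))
    = |cr (B - A) (C - A)| * (2 * P.b / (P.a * P.w ^ 2)) := by
  have hk := P.k_pos
  have hb := P.b_pos
  have ha := P.a_pos
  have hw := P.w_pos
  have hs := P.s_pos
  rw [tri_int2 hD (f := fun t => Real.cosh (P.k * t)) (by fun_prop)]
  congr 1
  rw [int_K3 _ hk.ne', P.cosh_k, P.k_eq]
  have hz : P.z = P.s ^ 2 := rfl
  field_simp
  rw [hz]
  ring

theorem int_one : ∫ _ in tri A B C, (1:ℝ) = |cr (B - A) (C - A)| * (1 / 2) := by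
  rw [area_tri A B C hD]; ring

/-- normalized moments -/
theorem g2_int : ∫ x in tri A B C, ch P (bl A B C x) ^ 2
    = |cr (B - A) (C - A)| * ((3 / 4 * P.a * P.w ^ 2 + 1 / 2 * P.w * P.b + 2 * (1 + 2 * P.z)) / (3 * P.a * P.w ^ 2)) := by
  have ha := P.a_pos
  have hw := P.w_pos
  have c1 := continuous_bl A B C
  have e : ∀ x, ch P (bl A B C x) ^ 2 = 1 / 2 * 1 + 1 / 2 * Real.cosh (2 * (P.k * bl A B C x - P.x)) := by
    intro x
    unfold ch
    rw [Real.cosh_two_mul, Real.sinh_sq]; ring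
  simp_rw [e]
  rw [integral_add (intT (by fun_prop)) (intT (by fun_prop)), integral_const_mul, integral_const_mul,
    int_one hD, K1_int hD]
  field_simp
  ring

theorem s2_int : ∫ x in tri A B C, sh P (bl A B C x) ^ 2
    = |cr (B - A) (C - A)| * ((-(3 / 4) * P.a * P.w ^ 2 + 1 / 2 * P.w * P.b + 2 * (1 + 2 * P.z)) / (3 * P.a * P.w ^ 2)) := by
  have ha := P.a_pos
  have hw := P.w_pos
  have c1 := continuous_bl A B C
  have e : ∀ x, sh P (bl A B C x) ^ 2 = 1 / 2 * Real.cosh (2 * (P.k * bl A B C x - P.x)) - 1 / 2 * 1 := by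
    intro x
    unfold sh
    rw [Real.cosh_two_mul, Real.cosh_sq]; ring
  simp_rw [e]
  rw [integral_sub (intT (by fun_prop)) (intT (by fun_prop)), integral_const_mul, integral_const_mul,
    int_one hD, K1_int hD]
  field_simp
  ring

theorem g11_int : ∫ x in tri A B C, ch P (bl B C A x) * ch P (bl C A B x)
    = |cr (B - A) (C - A)| * ((2 * P.a * P.w + 2 * P.b) / (3 * P.a * P.w ^ 2)) := by
  have ha := P.a_pos
  have hw := P.w_pos
  have c1 := continuous_bl A B C
  have c2 := continuous_bl B C A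
  have c3 := continuous_bl C A B
  have e : ∀ x, ch P (bl B C A x) * ch P (bl C A B x) = 1 / 2 * Real.cosh (P.k * (1 - bl A B C x) - 2 * P.x)
      + 1 / 2 * Real.cosh (P.k * (bl B C A x - bl C A B x)) := by
    intro x
    have h := bl_sum hD x
    unfold ch
    have e1 : P.k * (1 - bl A B C x) - 2 * P.x = (P.k * bl B C A x - P.x) + (P.k * bl C A B x - P.x) := by
      linear_combination (-P.k) * h
    have e2 : P.k * (bl B C A x - bl C A B x) = (P.k * bl B C A x - P.x) - (P.k * bl C A B x - P.x) := by ring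
    rw [e1, e2]
    generalize P.k * bl B C A x - P.x = p
    generalize P.k * bl C A B x - P.x = q
    rw [Real.cosh_add, Real.cosh_sub]; ring
  simp_rw [e]
  rw [integral_add (intT (by fun_prop)) (intT (by fun_prop)), integral_const_mul, integral_const_mul,
    K2_int hD, K3_int hD]
  field_simp
  ring

theorem s11_int : ∫ x in tri A B C, sh P (bl B C A x) * sh P (bl C A B x)
    = |cr (B - A) (C - A)| * ((2 * P.a * P.w - 4 * P.b) / (3 * P.a * P.w ^ 2)) := by
  have ha := P.a_pos
  have hw := P.w_pos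
  have c1 := continuous_bl A B C
  have c2 := continuous_bl B C A
  have c3 := continuous_bl C A B
  have e : ∀ x, sh P (bl B C A x) * sh P (bl C A B x) = 1 / 2 * Real.cosh (P.k * (1 - bl A B C x) - 2 * P.x)
      - 1 / 2 * Real.cosh (P.k * (bl B C A x - bl C A B x)) := by
    intro x
    have h := bl_sum hD x
    unfold sh
    have e1 : P.k * (1 - bl A B C x) - 2 * P.x = (P.k * bl B C A x - P.x) + (P.k * bl C A B x - P.x) := by
      linear_combination (-P.k) * h
    have e2 : P.k * (bl B C A x - bl C A B x) = (P.k * bl B C A x - P.x) - (P.k * bl C A B x - P.x) := by ring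
    rw [e1, e2]
    generalize P.k * bl B C A x - P.x = p
    generalize P.k * bl C A B x - P.x = q
    rw [Real.cosh_add, Real.cosh_sub]; ring
  simp_rw [e]
  rw [integral_sub (intT (by fun_prop)) (intT (by fun_prop)), integral_const_mul, integral_const_mul,
    K2_int hD, K3_int hD]
  field_simp
  ring

end

end Pool.Agent.Helper238.Rob
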