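import Pool.Agent.Helper238.Rob.H

set_option autoImplicit false

open MeasureTheory Set

namespace Pool.Agent.Helper238.Rob

open Pool.Agent.Helper238

theorem i1_int (P : Par) : ∫ τ in (0:ℝ)..1, ch P τ = 2 * Real.cosh P.x / P.w := by
  have hk := P.k_pos
  have hb := P.b_pos
  have hw := P.w_pos
  have hs := P.s_pos
  have h : ∀ t : ℝ, HasDerivAt (fun t => sh P t / P.k) (ch P t) t := by
    intro t
    refine ((hasDerivAt_sh P t).div_const P.k).congr_deriv ?_
    field_simp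
  rw [intervalIntegral.integral_eq_sub_of_hasDerivAt (fun u _ => h u)]
  · have e1 : sh P 0 = -(P.s * Real.cosh P.x) := by unfold sh; rw [mul_zero, zero_sub, Real.sinh_neg, P.hx]
    have e2 : sh P 1 = Real.cosh P.x * (P.s * (5 + 4 * P.z)) / P.b := by
      unfold sh; rw [mul_one, P.sinh_kx]
    rw [e1, e2, P.k_eq]
    have hz : P.z = P.s ^ 2 := rfl
    have hz3 : P.b = 1 - 4 * P.s ^ 2 := rfl
    field_simp
    rw [hz3, hz]
    ring
  · exact (continuous_ch P).intervalIntegrable _ _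

theorem i2_int (P : Par) : ∫ τ in (0:ℝ)..1, ch P τ ^ 2
    = 1 / 2 + (1 + 2 * P.z) * (1 + 4 * P.z) / (P.a * P.b * P.w) := by
  have hk := P.k_pos
  have hb := P.b_pos
  have ha := P.a_pos
  have hw := P.w_pos
  have hs := P.s_pos
  have h : ∀ t : ℝ, HasDerivAt (fun t => t / 2 + sh P t * ch P t / (2 * P.k)) (ch P t ^ 2) t := by
    intro t
    refine (((hasDerivAt_id t).div_const 2).add (((hasDerivAt_sh P t).mul (hasDerivAt_ch P t)).div_const (2 * P.k))).congr_deriv ?_
    have hc : ch P t ^ 2 = sh P t ^ 2 + 1 := Real.cosh_sq _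
    field_simp
    linear_combination -hc
  rw [intervalIntegral.integral_eq_sub_of_hasDerivAt (fun u _ => h u)]
  · have e1 : sh P 0 = -(P.s * Real.cosh P.x) := by unfold sh; rw [mul_zero, zero_sub, Real.sinh_neg, P.hx]
    have e2 : sh P 1 = Real.cosh P.x * (P.s * (5 + 4 * P.z)) / P.b := by
      unfold sh; rw [mul_one, P.sinh_kx]
    have e3 : ch P 0 = Real.cosh P.x := by unfold ch; rw [mul_zero, zero_sub, Real.cosh_neg]
    have e4 : ch P 1 = Real.cosh P.x * (1 + 8 * P.z) / P.b := by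
      unfold ch; rw [mul_one, P.cosh_kx]
    have hc : Real.cosh P.x ^ 2 = 1 / P.a := by have := P.cx2; field_simp; exact this
    rw [e1, e2, e3, e4]
    have e5 : Real.cosh P.x * (P.s * (5 + 4 * P.z)) / P.b * (Real.cosh P.x * (1 + 8 * P.z) / P.b)
        = P.s * (5 + 4 * P.z) * (1 + 8 * P.z) / (P.a * P.b ^ 2) := by
      have : Real.cosh P.x * (P.s * (5 + 4 * P.z)) / P.b * (Real.cosh P.x * (1 + 8 * P.z) / P.b)
        = Real.cosh P.x ^ 2 * (P.s * (5 + 4 * P.z) * (1 + 8 * P.z)) / P.b ^ 2 := by ring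
      rw [this, hc]; field_simp
    have e6 : -(P.s * Real.cosh P.x) * Real.cosh P.x = -(P.s / P.a) := by
      have : -(P.s * Real.cosh P.x) * Real.cosh P.x = - (P.s * Real.cosh P.x ^ 2) := by ring
      rw [this, hc]; ring
    rw [e5, e6, P.k_eq]
    have hz : P.z = P.s ^ 2 := rfl
    have hz2 : P.a = 1 - P.s ^ 2 := rfl
    have hz3 : P.b = 1 - 4 * P.s ^ 2 := rfl
    field_simp
    rw [hz3, hz]
    ring
  · have := continuous_ch P
    apply Continuous.intervalIntegrable; fun_prop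

theorem i11_int (P : Par) : ∫ τ in (0:ℝ)..1, ch P τ * ch P (1 - τ)
    = (1 + 4 * P.z) / (2 * P.b) + (1 + 2 * P.z) / (P.a * P.w) := by
  have hk := P.k_pos
  have hb := P.b_pos
  have ha := P.a_pos
  have hw := P.w_pos
  have hs := P.s_pos
  have e : ∀ τ : ℝ, ch P τ * ch P (1 - τ) = 1 / 2 * (Real.cosh (P.k - 2 * P.x) + Real.cosh (2 * P.k * τ - P.k)) := by
    intro τ
    unfold ch
    have e1 : P.k - 2 * P.x = (P.k * τ - P.x) + (P.k * (1 - τ) - P.x) := by ring
    have e2 : 2 * P.k * τ - P.k = (P.k * τ - P.x) - (P.k * (1 - τ) - P.x) := by ring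
    rw [e1, e2]
    generalize P.k * τ - P.x = p
    generalize P.k * (1 - τ) - P.x = q
    rw [Real.cosh_add, Real.cosh_sub]; ring
  simp_rw [e]
  have h : ∀ t : ℝ, HasDerivAt (fun t => 1 / 2 * (Real.cosh (P.k - 2 * P.x) * t + Real.sinh (2 * P.k * t - P.k) / (2 * P.k)))
      (1 / 2 * (Real.cosh (P.k - 2 * P.x) + Real.cosh (2 * P.k * t - P.k))) t := by
    intro t
    have h1 : HasDerivAt (fun t : ℝ => 2 * P.k * t - P.k) (2 * P.k) t := by
      simpa using ((hasDerivAt_id t).const_mul (2 * P.k)).sub_const P.k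
    refine ((((hasDerivAt_id t).const_mul (Real.cosh (P.k - 2 * P.x))).add (h1.sinh.div_const (2 * P.k))).const_mul (1/2)).congr_deriv ?_
    field_simp
  rw [intervalIntegral.integral_eq_sub_of_hasDerivAt (fun u _ => h u)]
  · have e1 : 2 * P.k * 1 - P.k = P.k := by ring
    have e2 : 2 * P.k * 0 - P.k = -P.k := by ring
    rw [e1, e2, Real.sinh_neg, P.cosh_2y, P.sinh_k]
    have hz : P.z = P.s ^ 2 := rfl
    rw [P.k_eq]
    field_simp
    ring
  · apply Continuous.intervalIntegrable; fun_prop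

/-- the integral of the squared trial function along a side -/
theorem side_int (P : Par) (a1 a2 a3 : ℝ) :
    ∫ τ in (0:ℝ)..1, (a1 * ch P (1 - τ) + a2 * ch P τ + a3 * ch P 0) ^ 2
      = (a1 ^ 2 + a2 ^ 2) * (1 / 2 + (1 + 2 * P.z) * (1 + 4 * P.z) / (P.a * P.b * P.w))
        + 2 * a1 * a2 * ((1 + 4 * P.z) / (2 * P.b) + (1 + 2 * P.z) / (P.a * P.w))
        + 4 * a3 * (a1 + a2) / (P.a * P.w) + a3 ^ 2 / P.a := by
  have hb := P.b_pos
  have ha := P.a_pos
  have hw := P.w_pos
  have cc := continuous_ch P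
  have e3 : ch P 0 = Real.cosh P.x := by unfold ch; rw [mul_zero, zero_sub, Real.cosh_neg]
  have r1 : ∫ τ in (0:ℝ)..1, ch P (1 - τ) = ∫ τ in (0:ℝ)..1, ch P τ := by
    have := intervalIntegral.integral_comp_sub_left (fun τ => ch P τ) (1:ℝ) (a := 0) (b := 1)
    simpa using this
  have r2 : ∫ τ in (0:ℝ)..1, ch P (1 - τ) ^ 2 = ∫ τ in (0:ℝ)..1, ch P τ ^ 2 := by
    have := intervalIntegral.integral_comp_sub_left (fun τ => ch P τ ^ 2) (1:ℝ) (a := 0) (b := 1)
    simpa using this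
  have ii : ∀ {f : ℝ → ℝ}, Continuous f → IntervalIntegrable f volume 0 1 := fun h => h.intervalIntegrable _ _
  have e : ∀ τ : ℝ, (a1 * ch P (1 - τ) + a2 * ch P τ + a3 * ch P 0) ^ 2
      = (a1 ^ 2 * ch P (1 - τ) ^ 2 + a2 ^ 2 * ch P τ ^ 2 + 2 * a1 * a2 * (ch P τ * ch P (1 - τ)))
        + (2 * a3 * a1 * ch P 0 * ch P (1 - τ) + 2 * a3 * a2 * ch P 0 * ch P τ + a3 ^ 2 * ch P 0 ^ 2) := by
    intro τ; ring
  simp_rw [e]
  rw [intervalIntegral.integral_add (ii (by fun_prop)) (ii (by fun_prop)),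
    intervalIntegral.integral_add (ii (by fun_prop)) (ii (by fun_prop)),
    intervalIntegral.integral_add (ii (by fun_prop)) (ii (by fun_prop)),
    intervalIntegral.integral_add (ii (by fun_prop)) (ii (by fun_prop)),
    intervalIntegral.integral_add (ii (by fun_prop)) (ii (by fun_prop)),
    intervalIntegral.integral_const_mul, intervalIntegral.integral_const_mul,
    intervalIntegral.integral_const_mul, intervalIntegral.integral_const_mul,
    intervalIntegral.integral_const_mul, r1, r2, i1_int, i2_int, i11_int, e3]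
  have hc : Real.cosh P.x ^ 2 = 1 / P.a := by have := P.cx2; field_simp; exact this
  have h1 : 2 * a3 * a1 * Real.cosh P.x * (2 * Real.cosh P.x / P.w) = 4 * a3 * a1 / (P.a * P.w) := by
    have : 2 * a3 * a1 * Real.cosh P.x * (2 * Real.cosh P.x / P.w) = 4 * a3 * a1 * Real.cosh P.x ^ 2 / P.w := by ring
    rw [this, hc]; field_simp
  have h2 : 2 * a3 * a2 * Real.cosh P.x * (2 * Real.cosh P.x / P.w) = 4 * a3 * a2 / (P.a * P.w) := by
    have : 2 * a3 * a2 * Real.cosh P.x * (2 * Real.cosh P.x / P.w) = 4 * a3 * a2 * Real.cosh P.x ^ 2 / P.w := by ring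
    rw [this, hc]; field_simp
  rw [h1, h2]
  simp only [intervalIntegral.integral_const, sub_zero, smul_eq_mul, one_mul]
  rw [hc]
  field_simp
  ring

end Pool.Agent.Helper238.Rob
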