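import Mathlib

set_option autoImplicit false

namespace Pool.Agent.Helper238.Rob

noncomputable def qG1 (z w : ℝ) : ℝ := -(3 / 4) * (1 - z) * w ^ 2 + 1 / 2 * w * (1 - 4 * z) + 2 * (1 + 2 * z)
noncomputable def qm1 (z w : ℝ) : ℝ := 3 / 4 * (1 - z) * w ^ 2 + 1 / 2 * w * (1 - 4 * z) + 2 * (1 + 2 * z)
noncomputable def qG2 (z w : ℝ) : ℝ := 2 * (1 - z) * w - 4 * (1 - 4 * z)
noncomputable def qm2 (z w : ℝ) : ℝ := 2 * (1 - z) * w + 2 * (1 - 4 * z)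
noncomputable def q00 (z w : ℝ) : ℝ := (1 - 4 * z) * w
noncomputable def qgg (z w : ℝ) : ℝ := 1 / 2 * (1 - z) * (1 - 4 * z) * w + (1 + 2 * z) * (1 + 4 * z)
noncomputable def qgs (z w : ℝ) : ℝ := 1 / 2 * (1 - z) * w * (1 + 4 * z) + (1 - 4 * z) * (1 + 2 * z)
noncomputable def q01 (z : ℝ) : ℝ := 2 * (1 - 4 * z)

/-- normalized quadratic form of the three corner trial functions -/
noncomputable def Qh (z w p1 p2 p3 a1 a2 a3 : ℝ) : ℝ :=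
  a1 ^ 2 * (qG1 z w * p1 ^ 2 + qm1 z w) + a2 ^ 2 * (qG1 z w * p2 ^ 2 + qm1 z w)
    + a3 ^ 2 * (qG1 z w * p3 ^ 2 + qm1 z w)
  + a1 * a2 * (qG2 z w * (p3 ^ 2 - p1 ^ 2 - p2 ^ 2) + 2 * qm2 z w)
  + a1 * a3 * (qG2 z w * (p2 ^ 2 - p1 ^ 2 - p3 ^ 2) + 2 * qm2 z w)
  + a2 * a3 * (qG2 z w * (p1 ^ 2 - p2 ^ 2 - p3 ^ 2) + 2 * qm2 z w)
  - p1 * (a1 ^ 2 * q00 z w + (a2 ^ 2 + a3 ^ 2) * qgg z w + 2 * a2 * a3 * qgs z w + 2 * a1 * (a2 + a3) * q01 z)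
  - p2 * (a2 ^ 2 * q00 z w + (a1 ^ 2 + a3 ^ 2) * qgg z w + 2 * a1 * a3 * qgs z w + 2 * a2 * (a1 + a3) * q01 z)
  - p3 * (a3 ^ 2 * q00 z w + (a1 ^ 2 + a2 ^ 2) * qgg z w + 2 * a1 * a2 * qgs z w + 2 * a3 * (a1 + a2) * q01 z)

end Pool.Agent.Helper238.Rob
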