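import Pool.Agent.Helper238.Rob.I
import Pool.Agent.Helper238.Rob.Q

set_option autoImplicit false

open MeasureTheory Set

namespace Pool.Agent.Helper238.Rob

open Pool.Agent.Helper238

/-- the three corner trial function -/
noncomputable def tf (P : Par) (A B C : E2) (a1 a2 a3 : ℝ) (x : E2) : ℝ :=
  a1 * ch P (bl A B C x) + a2 * ch P (bl B C A x) + a3 * ch P (bl C A B x)

theorem contDiff_tf (P : Par) (A B C : E2) (a1 a2 a3 : ℝ) : ContDiff ℝ 1 (tf P A B C a1 a2 a3) := by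
  have h1 := (contDiff_ch P).comp (contDiff_bl A B C)
  have h2 := (contDiff_ch P).comp (contDiff_bl B C A)
  have h3 := (contDiff_ch P).comp (contDiff_bl C A B)
  exact (((contDiff_const.mul h1).add (contDiff_const.mul h2)).add (contDiff_const.mul h3)).of_le
    (by exact_mod_cast le_top)

section
variable {A B C : E2} (hD : cr (B - A) (C - A) ≠ 0) (P : Par) (a1 a2 a3 : ℝ)
include hD

theorem tf_dirs (x : E2) :
    fderiv ℝ (tf P A B C a1 a2 a3) x (A - C) = P.k * (a1 * sh P (bl A B C x) - a3 * sh P (bl C A B x)) ∧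
    fderiv ℝ (tf P A B C a1 a2 a3) x (B - C) = P.k * (a2 * sh P (bl B C A x) - a3 * sh P (bl C A B x)) := by
  obtain ⟨m1, m2, m3, m4, m5, m6⟩ := dl_dirs hD
  have h := ((((fd_ch P A B C x).const_mul a1).add ((fd_ch P B C A x).const_mul a2)).add
    ((fd_ch P C A B x).const_mul a3)).fderiv
  have h4 : fderiv ℝ (tf P A B C a1 a2 a3) x = _ := h
  constructor
  · rw [h4]; simp [m1, m2, m3]; ring
  · rw [h4]; simp [m4, m5, m6]; ring

theorem six {f1 f2 f3 f4 f5 f6 : E2 → ℝ} (h1 : Continuous f1) (h2 : Continuous f2) (h3 : Continuous f3)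
    (h4 : Continuous f4) (h5 : Continuous f5) (h6 : Continuous f6) (c1 c2 c3 c4 c5 c6 : ℝ) :
    ∫ x in tri A B C, (c1 * f1 x + c2 * f2 x + c3 * f3 x + c4 * f4 x + c5 * f5 x + c6 * f6 x)
      = c1 * (∫ x in tri A B C, f1 x) + c2 * (∫ x in tri A B C, f2 x) + c3 * (∫ x in tri A B C, f3 x)
      + c4 * (∫ x in tri A B C, f4 x) + c5 * (∫ x in tri A B C, f5 x) + c6 * (∫ x in tri A B C, f6 x) := by
  rw [integral_add (intT (by fun_prop)) (intT (by fun_prop)),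
    integral_add (intT (by fun_prop)) (intT (by fun_prop)),
    integral_add (intT (by fun_prop)) (intT (by fun_prop)),
    integral_add (intT (by fun_prop)) (intT (by fun_prop)),
    integral_add (intT (by fun_prop)) (intT (by fun_prop)), integral_const_mul, integral_const_mul,
    integral_const_mul, integral_const_mul, integral_const_mul, integral_const_mul]

theorem tf_grad {l p1 p2 p3 : ℝ} (h1 : dist B C = l * p1) (h2 : dist C A = l * p2)
    (h3 : dist A B = l * p3) :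
    ∫ x in tri A B C, ‖fderiv ℝ (tf P A B C a1 a2 a3) x‖ ^ 2
      = l ^ 2 * P.k ^ 2 / |cr (B - A) (C - A)| / (3 * P.a * P.w ^ 2) *
        (qG1 P.z P.w * (a1 ^ 2 * p1 ^ 2 + a2 ^ 2 * p2 ^ 2 + a3 ^ 2 * p3 ^ 2)
          + qG2 P.z P.w * (a1 * a2 * (p3 ^ 2 - p1 ^ 2 - p2 ^ 2) + a1 * a3 * (p2 ^ 2 - p1 ^ 2 - p3 ^ 2)
            + a2 * a3 * (p1 ^ 2 - p2 ^ 2 - p3 ^ 2))) := by
  have hB : cr (C - B) (A - B) ≠ 0 := by rw [cr_cyc A B C]; exact hD
  have hC : cr (A - C) (B - C) ≠ 0 := by rw [cr_cyc2 A B C]; exact hD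
  have ha := P.a_pos
  have hw := P.w_pos
  have c1 := continuous_bl A B C
  have c2 := continuous_bl B C A
  have c3 := continuous_bl C A B
  have cs := continuous_sh P
  obtain ⟨D, hDD⟩ : ∃ D, D = |cr (B - A) (C - A)| := ⟨_, rfl⟩
  have hD0 : 0 < D := by rw [hDD]; exact abs_pos.2 hD
  have hD2 : cr (B - A) (C - A) ^ 2 = D ^ 2 := by rw [hDD, sq_abs]
  have l1 : sd (B - C) = (l * p1) ^ 2 := by rw [← norm_sq, ← dist_eq_norm, h1]
  have l2 : sd (A - C) = (l * p2) ^ 2 := by rw [← norm_sq, ← dist_eq_norm, dist_comm, h2]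
  have l3 : sd (A - C - (B - C)) = (l * p3) ^ 2 := by
    rw [sub_sub_sub_cancel_right, ← norm_sq, ← dist_eq_norm, h3]
  have e : ∀ x, ‖fderiv ℝ (tf P A B C a1 a2 a3) x‖ ^ 2
      = (l ^ 2 * P.k ^ 2 / D ^ 2 * (a1 ^ 2 * p1 ^ 2)) * (sh P (bl A B C x) ^ 2)
        + (l ^ 2 * P.k ^ 2 / D ^ 2 * (a2 ^ 2 * p2 ^ 2)) * (sh P (bl B C A x) ^ 2)
        + (l ^ 2 * P.k ^ 2 / D ^ 2 * (a3 ^ 2 * p3 ^ 2)) * (sh P (bl C A B x) ^ 2)
        + (l ^ 2 * P.k ^ 2 / D ^ 2 * (a2 * a3 * (p1 ^ 2 - p2 ^ 2 - p3 ^ 2))) * (sh P (bl B C A x) * sh P (bl C A B x))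
        + (l ^ 2 * P.k ^ 2 / D ^ 2 * (a1 * a3 * (p2 ^ 2 - p1 ^ 2 - p3 ^ 2))) * (sh P (bl C A B x) * sh P (bl A B C x))
        + (l ^ 2 * P.k ^ 2 / D ^ 2 * (a1 * a2 * (p3 ^ 2 - p1 ^ 2 - p2 ^ 2))) * (sh P (bl A B C x) * sh P (bl B C A x)) := by
    intro x
    rw [nsq _ (A - C) (B - C) hC, l1, l2, l3, cr_cyc2 A B C, hD2, (tf_dirs hD P a1 a2 a3 x).1,
      (tf_dirs hD P a1 a2 a3 x).2]
    field_simp
    ring
  simp_rw [e]
  rw [six hD (by fun_prop) (by fun_prop) (by fun_prop) (by fun_prop) (by fun_prop) (by fun_prop)]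
  have s1 := s2_int hD P
  have s2 := s2_int (A := B) (B := C) (C := A) hB P
  have s3 := s2_int (A := C) (B := A) (C := B) hC P
  have t1 := s11_int hD P
  have t2 := s11_int (A := B) (B := C) (C := A) hB P
  have t3 := s11_int (A := C) (B := A) (C := B) hC P
  rw [cr_cyc A B C, tri_cyc A B C] at s2 t2
  rw [cr_cyc2 A B C, tri_cyc2 A B C] at s3 t3
  rw [s1, s2, s3, t1, t2, t3, ← hDD]
  unfold qG1 qG2
  have ea : P.a = 1 - P.z := rfl
  have eb : P.b = 1 - 4 * P.z := rfl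
  rw [← ea, ← eb]
  field_simp
  ring

theorem tf_mass :
    ∫ x in tri A B C, tf P A B C a1 a2 a3 x ^ 2
      = |cr (B - A) (C - A)| / (3 * P.a * P.w ^ 2) *
        (qm1 P.z P.w * (a1 ^ 2 + a2 ^ 2 + a3 ^ 2) + 2 * qm2 P.z P.w * (a1 * a2 + a1 * a3 + a2 * a3)) := by
  have hB : cr (C - B) (A - B) ≠ 0 := by rw [cr_cyc A B C]; exact hD
  have hC : cr (A - C) (B - C) ≠ 0 := by rw [cr_cyc2 A B C]; exact hD
  have ha := P.a_pos
  have hw := P.w_pos
  have c1 := continuous_bl A B C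
  have c2 := continuous_bl B C A
  have c3 := continuous_bl C A B
  have cs := continuous_ch P
  have e : ∀ x, tf P A B C a1 a2 a3 x ^ 2
      = a1 ^ 2 * (ch P (bl A B C x) ^ 2) + a2 ^ 2 * (ch P (bl B C A x) ^ 2) + a3 ^ 2 * (ch P (bl C A B x) ^ 2)
        + (2 * (a2 * a3)) * (ch P (bl B C A x) * ch P (bl C A B x))
        + (2 * (a1 * a3)) * (ch P (bl C A B x) * ch P (bl A B C x))
        + (2 * (a1 * a2)) * (ch P (bl A B C x) * ch P (bl B C A x)) := by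
    intro x; unfold tf; ring
  simp_rw [e]
  rw [six hD (by fun_prop) (by fun_prop) (by fun_prop) (by fun_prop) (by fun_prop) (by fun_prop)]
  have s1 := g2_int hD P
  have s2 := g2_int (A := B) (B := C) (C := A) hB P
  have s3 := g2_int (A := C) (B := A) (C := B) hC P
  have t1 := g11_int hD P
  have t2 := g11_int (A := B) (B := C) (C := A) hB P
  have t3 := g11_int (A := C) (B := A) (C := B) hC P
  rw [cr_cyc A B C, tri_cyc A B C] at s2 t2
  rw [cr_cyc2 A B C, tri_cyc2 A B C] at s3 t3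
  rw [s1, s2, s3, t1, t2, t3]
  unfold qm1 qm2
  have ea : P.a = 1 - P.z := rfl
  have eb : P.b = 1 - 4 * P.z := rfl
  rw [← ea, ← eb]
  field_simp
  ring

theorem tf_side :
    sI (fun x => tf P A B C a1 a2 a3 x ^ 2) A B
      = (1 / (P.a * P.b * P.w)) * (a3 ^ 2 * q00 P.z P.w + (a1 ^ 2 + a2 ^ 2) * qgg P.z P.w
        + 2 * a1 * a2 * qgs P.z P.w + 2 * a3 * (a1 + a2) * q01 P.z) := by
  have ha := P.a_pos
  have hb := P.b_pos
  have hw := P.w_pos
  have h : sI (fun x => tf P A B C a1 a2 a3 x ^ 2) A B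
      = ∫ τ in (0:ℝ)..1, (a1 * ch P (1 - τ) + a2 * ch P τ + a3 * ch P 0) ^ 2 := by
    unfold sI
    congr 1; ext τ
    unfold tf
    have hB : cr (C - B) (A - B) ≠ 0 := by rw [cr_cyc A B C]; exact hD
    have hC : cr (A - C) (B - C) ≠ 0 := by rw [cr_cyc2 A B C]; exact hD
    have e0 : A + τ • (B - A) = (1 - τ) • A + τ • B := by
      rw [smul_sub, sub_smul, one_smul]; abel
    have e1 := bl_comb hD (1 - τ) τ 0 (by ring)
    have e2 := bl_comb (A := B) (B := C) (C := A) hB τ 0 (1 - τ) (by ring)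
    have e3 := bl_comb (A := C) (B := A) (C := B) hC 0 (1 - τ) τ (by ring)
    simp only [zero_smul, zero_add, add_zero] at e1 e2 e3
    rw [add_comm (τ • B)] at e2
    rw [e0]
    simp only [e1, e2, e3]
  rw [h, side_int]
  unfold q00 qgg qgs q01
  have ea : P.a = 1 - P.z := rfl
  have eb : P.b = 1 - 4 * P.z := rfl
  rw [← ea, ← eb]
  field_simp
  ring

end

theorem tf_cyc (P : Par) (A B C : E2) (a1 a2 a3 : ℝ) (x : E2) :
    tf P B C A a2 a3 a1 x = tf P A B C a1 a2 a3 x := by unfold tf; ring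

theorem tf_energy {A B C : E2} (hD : cr (B - A) (C - A) ≠ 0) (P : Par) (a1 a2 a3 : ℝ)
    {l p1 p2 p3 : ℝ} (h1 : dist B C = l * p1) (h2 : dist C A = l * p2) (h3 : dist A B = l * p3) :
    (∫ x in tri A B C, ‖fderiv ℝ (tf P A B C a1 a2 a3) x‖ ^ 2)
      + (P.k * l / |cr (B - A) (C - A)|) ^ 2 * (∫ x in tri A B C, tf P A B C a1 a2 a3 x ^ 2)
      + (-(P.k * P.s * l / |cr (B - A) (C - A)|)) * bI A B C (fun x => tf P A B C a1 a2 a3 x ^ 2)
    = (3 * P.z * l ^ 2 / (|cr (B - A) (C - A)| * P.a * P.b ^ 2)) * Qh P.z P.w p1 p2 p3 a1 a2 a3 := by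
  have hB : cr (C - B) (A - B) ≠ 0 := by rw [cr_cyc A B C]; exact hD
  have hC : cr (A - C) (B - C) ≠ 0 := by rw [cr_cyc2 A B C]; exact hD
  have ha := P.a_pos
  have hb := P.b_pos
  have hw := P.w_pos
  have hs := P.s_pos
  have b1 := tf_side hD P a1 a2 a3
  have b2 := tf_side (A := B) (B := C) (C := A) hB P a2 a3 a1
  have b3 := tf_side (A := C) (B := A) (C := B) hC P a3 a1 a2
  simp_rw [tf_cyc P A B C a1 a2 a3] at b2
  simp_rw [← tf_cyc P C A B a3 a1 a2] at b3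
  rw [tf_grad hD P a1 a2 a3 h1 h2 h3, tf_mass hD P a1 a2 a3]
  unfold bI
  rw [b1, b2, b3, h1, h2, h3]
  obtain ⟨D, hDD⟩ : ∃ D, D = |cr (B - A) (C - A)| := ⟨_, rfl⟩
  have hD0 : 0 < D := by rw [hDD]; exact abs_pos.2 hD
  rw [← hDD, P.k_eq]
  have hz : P.z = P.s ^ 2 := rfl
  unfold Qh
  generalize qG1 P.z P.w = G1
  generalize qG2 P.z P.w = G2
  generalize qm1 P.z P.w = M1
  generalize qm2 P.z P.w = M2
  generalize q00 P.z P.w = g00
  generalize qgg P.z P.w = ggg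
  generalize qgs P.z P.w = ggs
  generalize q01 P.z = g01
  rw [hz]
  field_simp
  ring

end Pool.Agent.Helper238.Rob
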