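import Pool.Agent.Helper238.Rob.J

set_option autoImplicit false

open MeasureTheory Set

namespace Pool.Agent.Helper238.Rob

open Pool.Agent.Helper238

theorem int_sq_pos {A B C : E2} (hD : cr (B - A) (C - A) ≠ 0) {u : E2 → ℝ} (hcu : Continuous u)
    (hup : ∀ x, 0 < u x) : 0 < ∫ x in tri A B C, u x ^ 2 := by
  rw [setIntegral_pos_iff_support_of_nonneg_ae (Filter.Eventually.of_forall fun x => sq_nonneg _)
    (intT (by fun_prop))]
  have : Function.support (fun x => u x ^ 2) = univ := by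
    ext x; simp [(hup x).ne']
  rw [this, univ_inter]
  exact (isOpen_interior.measure_pos volume (interior_tri_nonempty hD)).trans_le (measure_mono interior_subset)

theorem const_case {A B C : E2} (hD : cr (B - A) (C - A) ≠ 0) (P : Par)
    {l p1 p2 p3 : ℝ} (hl : 0 < l) (h1 : dist B C = l * p1) (h2 : dist C A = l * p2) (h3 : dist A B = l * p3)
    (hp : P.k ≤ 2 * P.s * (p1 + p2 + p3)) :
    lam1 (interior (tri A B C)) (-(P.k * P.s * l / |cr (B - A) (C - A)|))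
      ≤ -(P.k * l / |cr (B - A) (C - A)|) ^ 2 := by
  have hk := P.k_pos
  have hs := P.s_pos
  obtain ⟨D, hDD⟩ : ∃ D, D = |cr (B - A) (C - A)| := ⟨_, rfl⟩
  have hD0 : 0 < D := by rw [hDD]; exact abs_pos.2 hD
  apply lam1_le hD (u := fun _ => 1) (by rw [← hDD, neg_lt_zero]; positivity) contDiff_const
  · simp only [one_pow]
    rw [int_one hD, ← hDD]; positivity
  · have e1 : ∫ x in tri A B C, ‖fderiv ℝ (fun _ : E2 => (1:ℝ)) x‖ ^ 2 = 0 := by simp
    have e2 : ∀ Q R : E2, sI (fun _ => (1:ℝ)) Q R = 1 := by intro Q R; simp [sI]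
    rw [e1]
    simp only [one_pow]
    rw [int_one hD]
    unfold bI
    rw [e2, e2, e2, h1, h2, h3, ← hDD]
    have : 0 + (P.k * l / D) ^ 2 * (D * (1 / 2)) + -(P.k * P.s * l / D) * (l * p3 * 1 + l * p1 * 1 + l * p2 * 1)
        = (P.k * l ^ 2 / (2 * D)) * (P.k - 2 * P.s * (p1 + p2 + p3)) := by
      field_simp; ring
    rw [this]
    apply mul_nonpos_of_nonneg_of_nonpos (by positivity) (by linarith)

theorem corner_case {A B C : E2} (hD : cr (B - A) (C - A) ≠ 0) (P : Par)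
    {l p1 p2 p3 : ℝ} (hl : 0 < l) (h1 : dist B C = l * p1) (h2 : dist C A = l * p2) (h3 : dist A B = l * p3)
    (hp1 : 0 < p1) (hp2 : 0 < p2) (hp3 : 0 < p3)
    (hp : (1 - 2 * P.z) * (2 * p2 * p3) ≤ p2 ^ 2 + p3 ^ 2 - p1 ^ 2) :
    lam1 (interior (tri A B C)) (-(P.k * P.s * l / |cr (B - A) (C - A)|))
      ≤ -(P.k * l / |cr (B - A) (C - A)|) ^ 2 := by
  have hk := P.k_pos
  have hs := P.s_pos
  have hB : cr (C - B) (A - B) ≠ 0 := by rw [cr_cyc A B C]; exact hD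
  have hC : cr (A - C) (B - C) ≠ 0 := by rw [cr_cyc2 A B C]; exact hD
  obtain ⟨D, hDD⟩ : ∃ D, D = |cr (B - A) (C - A)| := ⟨_, rfl⟩
  have hD0 : 0 < D := by rw [hDD]; exact abs_pos.2 hD
  have hD2 : cr (B - A) (C - A) ^ 2 = D ^ 2 := by rw [hDD, sq_abs]
  obtain ⟨m, hm⟩ : ∃ m, m = P.k / (2 * P.s) := ⟨_, rfl⟩
  have hm0 : 0 < m := by rw [hm]; positivity
  obtain ⟨u, hu⟩ : ∃ u : E2 → ℝ, u = fun x => Real.exp (-(m / p2) * bl B C A x + -(m / p3) * bl C A B x) := ⟨_, rfl⟩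
  have cu : ContDiff ℝ 1 u := by
    have k1 : ContDiff ℝ 1 (bl B C A) := (contDiff_bl B C A).of_le (by exact_mod_cast le_top)
    have k2 : ContDiff ℝ 1 (bl C A B) := (contDiff_bl C A B).of_le (by exact_mod_cast le_top)
    rw [hu]
    exact ((contDiff_const.mul k1).add (contDiff_const.mul k2)).exp
  obtain ⟨v1, v2, v3, v4, v5, v6⟩ := dl_vals hD
  have hf : ∀ x, HasFDerivAt u (u x • (-(m / p2) • dl B C A + -(m / p3) • dl C A B)) x := by
    intro x
    have k1 := ((hasFDerivAt_bl B C A x).const_mul (-(m / p2))).add ((hasFDerivAt_bl C A B x).const_mul (-(m / p3)))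
    have k2 := k1.exp
    rw [hu]
    exact k2
  have fB : ∀ x, fderiv ℝ u x (B - A) = -(m / p2) * u x := by
    intro x
    rw [(hf x).fderiv]
    simp only [smul_apply, add_apply, smul_eq_mul, v3, v5]
    ring
  have fC : ∀ x, fderiv ℝ u x (C - A) = -(m / p3) * u x := by
    intro x
    rw [(hf x).fderiv]
    simp only [smul_apply, add_apply, smul_eq_mul, v4, v6]
    ring
  have hcu := cu.continuous
  have l1 : sd (B - A - (C - A)) = (l * p1) ^ 2 := by
    rw [sub_sub_sub_cancel_right, ← norm_sq, ← dist_eq_norm, h1]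
  have l2 : sd (C - A) = (l * p2) ^ 2 := by rw [← norm_sq, ← dist_eq_norm, h2]
  have l3 : sd (B - A) = (l * p3) ^ 2 := by rw [← norm_sq, ← dist_eq_norm, dist_comm, h3]
  have hg : ∀ x, ‖fderiv ℝ u x‖ ^ 2 = (l ^ 2 * m ^ 2 * (2 - (p2 ^ 2 + p3 ^ 2 - p1 ^ 2) / (p2 * p3)) / D ^ 2) * u x ^ 2 := by
    intro x
    rw [nsq _ (B - A) (C - A) hD, l1, l2, l3, hD2, fB, fC]
    field_simp
    ring
  have cv : ContDiff ℝ 1 (fun x => u x ^ 2) := cu.pow 2
  have d1 := dvg (A := C) (B := A) (C := B) hC cv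
  have d2 := dvg (A := B) (B := C) (C := A) hB cv
  rw [cr_cyc2 A B C, tri_cyc2, ← hDD] at d1
  rw [cr_cyc A B C, tri_cyc, ← hDD] at d2
  have gB : ∀ x, fderiv ℝ (fun x => u x ^ 2) x (B - A) = -(2 * m / p2) * u x ^ 2 := by
    intro x
    have h4 := ((hf x).pow 2).fderiv
    have h5 : fderiv ℝ (fun x => u x ^ 2) x = _ := h4
    rw [h5]
    simp only [smul_apply, add_apply, smul_eq_mul, v3, v5]
    simp
    ring
  have gC : ∀ x, fderiv ℝ (fun x => u x ^ 2) x (A - C) = (2 * m / p3) * u x ^ 2 := by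
    intro x
    have h4 := ((hf x).pow 2).fderiv
    have h5 : fderiv ℝ (fun x => u x ^ 2) x = _ := h4
    rw [h5, ← neg_sub C A, map_neg]
    simp only [smul_apply, add_apply, smul_eq_mul, v4, v6]
    simp
    ring
  simp_rw [gB] at d1
  simp_rw [gC] at d2
  rw [integral_const_mul] at d1 d2
  obtain ⟨V, hV⟩ : ∃ V, V = ∫ x in tri A B C, u x ^ 2 := ⟨_, rfl⟩
  rw [← hV] at d1 d2
  rw [sI_symm _ C B] at d1
  rw [sI_symm _ B A] at d2
  have hVpos : 0 < V := by
    rw [hV]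
    exact int_sq_pos hD hcu (by intro x; rw [hu]; exact Real.exp_pos _)
  apply lam1_le hD (u := u) (by rw [← hDD, neg_lt_zero]; positivity) cu
  · rw [← hV]; exact hVpos
  · simp_rw [hg]
    rw [integral_const_mul, ← hV, ← hDD]
    unfold bI
    rw [h1, h2, h3]
    obtain ⟨W, hW⟩ : ∃ W, W = sI (fun x => u x ^ 2) B C := ⟨_, rfl⟩
    have hW0 : 0 ≤ W := by rw [hW]; exact sI_nonneg (fun _ => sq_nonneg _) _ _
    have e1 : sI (fun x => u x ^ 2) C A = W + (2 * m / (p2 * D)) * V := by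
      rw [← hW] at d1
      field_simp at d1 ⊢
      linarith
    have e2 : sI (fun x => u x ^ 2) A B = W + (2 * m / (p3 * D)) * V := by
      rw [← hW] at d2
      field_simp at d2 ⊢
      linarith
    rw [e1, e2, ← hW]
    have key : l ^ 2 * m ^ 2 * (2 - (p2 ^ 2 + p3 ^ 2 - p1 ^ 2) / (p2 * p3)) / D ^ 2 * V + (P.k * l / D) ^ 2 * V
        + -(P.k * P.s * l / D) * (l * p3 * (W + 2 * m / (p3 * D) * V) + l * p1 * W + l * p2 * (W + 2 * m / (p2 * D) * V))
        = (l ^ 2 * P.k ^ 2 / (4 * D ^ 2 * P.z * (p2 * p3))) * ((1 - 2 * P.z) * (2 * p2 * p3) - (p2 ^ 2 + p3 ^ 2 - p1 ^ 2)) * V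
          - (P.k * P.s * l ^ 2 / D) * (p1 + p2 + p3) * W := by
      have hz : P.z = P.s ^ 2 := rfl
      rw [hm, hz]
      field_simp
      ring
    rw [key]
    have hz := P.z_pos
    have n1 : (l ^ 2 * P.k ^ 2 / (4 * D ^ 2 * P.z * (p2 * p3))) * ((1 - 2 * P.z) * (2 * p2 * p3) - (p2 ^ 2 + p3 ^ 2 - p1 ^ 2)) * V ≤ 0 := by
      apply mul_nonpos_of_nonpos_of_nonneg _ hVpos.le
      exact mul_nonpos_of_nonneg_of_nonpos (by positivity) (by linarith)
    have n2 : 0 ≤ (P.k * P.s * l ^ 2 / D) * (p1 + p2 + p3) * W := by positivity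
    linarith

theorem tf_case {A B C : E2} (hD : cr (B - A) (C - A) ≠ 0) (P : Par)
    {l p1 p2 p3 : ℝ} (hl : 0 < l) (h1 : dist B C = l * p1) (h2 : dist C A = l * p2) (h3 : dist A B = l * p3)
    {a1 a2 a3 : ℝ} (ha1 : 0 < a1) (ha2 : 0 < a2) (ha3 : 0 < a3)
    (hq : Qh P.z P.w p1 p2 p3 a1 a2 a3 ≤ 0) :
    lam1 (interior (tri A B C)) (-(P.k * P.s * l / |cr (B - A) (C - A)|))
      ≤ -(P.k * l / |cr (B - A) (C - A)|) ^ 2 := by
  have hk := P.k_pos
  have hs := P.s_pos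
  have hap := P.a_pos
  have hb := P.b_pos
  have hz := P.z_pos
  have e := tf_energy hD P a1 a2 a3 h1 h2 h3
  have hcu := (contDiff_tf P A B C a1 a2 a3).continuous
  obtain ⟨D, hDD⟩ : ∃ D, D = |cr (B - A) (C - A)| := ⟨_, rfl⟩
  have hD0 : 0 < D := by rw [hDD]; exact abs_pos.2 hD
  apply lam1_le hD (u := tf P A B C a1 a2 a3) (by rw [← hDD, neg_lt_zero]; positivity) (contDiff_tf P A B C a1 a2 a3)
  · apply int_sq_pos hD hcu
    intro x
    unfold tf
    have c1 := ch_pos P (bl A B C x)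
    have c2 := ch_pos P (bl B C A x)
    have c3 := ch_pos P (bl C A B x)
    positivity
  · rw [e]
    exact mul_nonpos_of_nonneg_of_nonpos (by positivity) hq

end Pool.Agent.Helper238.Rob
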