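import Pool.Agent.Helper238.Rob.Q

set_option autoImplicit false

namespace Pool.Agent.Helper238.Rob

theorem HF {y1 y2 y3 : ℝ} (h1 : 0 ≤ y1) (h2 : 0 ≤ y2) (h3 : 0 ≤ y3)
    (h : 16 * (y1 + y2 + y3) * (y1 * y2 * y3) = 3) : 3 / 4 ≤ y1 * y2 + y2 * y3 + y3 * y1 := by
  have h4 : (y1 * y2 + y2 * y3 + y3 * y1) ^ 2 ≥ 3 * ((y1 + y2 + y3) * (y1 * y2 * y3)) := by
    nlinarith [sq_nonneg (y1 * y2 - y2 * y3), sq_nonneg (y2 * y3 - y3 * y1), sq_nonneg (y3 * y1 - y1 * y2)]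
  have h5 : 0 ≤ y1 * y2 + y2 * y3 + y3 * y1 := by positivity
  nlinarith

/-- `σ² - 2 Σ p² ≥ 3` -/
theorem HF' {p1 p2 p3 : ℝ} (h1 : p1 ≤ p2 + p3) (h2 : p2 ≤ p1 + p3) (h3 : p3 ≤ p1 + p2)
    (h : 4 * p2 ^ 2 * p3 ^ 2 - (p2 ^ 2 + p3 ^ 2 - p1 ^ 2) ^ 2 = 3) :
    3 ≤ (p1 + p2 + p3) ^ 2 - 2 * (p1 ^ 2 + p2 ^ 2 + p3 ^ 2) := by
  have := HF (y1 := (p2 + p3 - p1) / 2) (y2 := (p1 + p3 - p2) / 2) (y3 := (p1 + p2 - p3) / 2)
    (by linarith) (by linarith) (by linarith) (by linear_combination h)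
  nlinarith

theorem sigma_ge {p1 p2 p3 : ℝ} (hp1 : 0 < p1) (hp2 : 0 < p2) (hp3 : 0 < p3)
    (h : 3 ≤ (p1 + p2 + p3) ^ 2 - 2 * (p1 ^ 2 + p2 ^ 2 + p3 ^ 2)) : 3 ≤ p1 + p2 + p3 := by
  have h0 : 0 < p1 + p2 + p3 := by positivity
  nlinarith [sq_nonneg (p1 - p2), sq_nonneg (p2 - p3), sq_nonneg (p1 - p3)]

/-- first case: the unweighted transplant -/
theorem caseI {z w r p1 p2 p3 : ℝ} (hz0 : 0 < z) (hz : z ≤ 1 / 6) (hr1 : 1 + z ≤ r)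
    (hr2 : r ≤ 1 + z / (9 * (1 - z)) + 8 * z / (9 * (1 - 4 * z))) (hw : w = 2 * (1 - 4 * z) * r)
    (hp1 : 0 < p1) (hp2 : 0 < p2) (hp3 : 0 < p3)
    (hs : 3 ≤ (p1 + p2 + p3) ^ 2 - 2 * (p1 ^ 2 + p2 ^ 2 + p3 ^ 2))
    (hr : p1 + p2 + p3 ≤ 3 * r) :
    Qh z w p1 p2 p3 1 1 1 ≤ 0 := by
  have hσ := sigma_ge hp1 hp2 hp3 hs
  obtain ⟨σ, hσe⟩ : ∃ σ, σ = p1 + p2 + p3 := ⟨_, rfl⟩
  obtain ⟨S, hS⟩ : ∃ S, S = p1 ^ 2 + p2 ^ 2 + p3 ^ 2 := ⟨_, rfl⟩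
  obtain ⟨d, hd⟩ : ∃ d, d = 6 * (1 - 2 * z) - 3 / 2 * w - 3 / 4 * (1 - z) * w ^ 2 := ⟨_, rfl⟩
  have hQ : Qh z w p1 p2 p3 1 1 1 = d * (S - 3) - 3 * (1 - 2 * z) * (w + 4) * (σ - 3) := by
    unfold Qh qG1 qG2 qm1 qm2 q00 qgg qgs q01
    rw [hd, hS, hσe]; ring
  rw [hQ]
  rw [← hσe, ← hS] at hs
  rw [← hσe] at hσ hr
  have hS3 : 3 ≤ S := by
    rw [hS]; rw [hσe] at hσ
    nlinarith [sq_nonneg (p1 - p2), sq_nonneg (p2 - p3), sq_nonneg (p1 - p3)]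
  have hb : 0 < 1 - 4 * z := by linarith
  have ha : 0 < 1 - z := by linarith
  have hrpos : 0 < r := by linarith
  have hwpos : 0 < w := by rw [hw]; positivity
  have hpos : 0 ≤ 3 * (1 - 2 * z) * (w + 4) := by
    have : 0 < 1 - 2 * z := by linarith
    positivity
  by_cases hd0 : d ≤ 0
  · have h1 : d * (S - 3) ≤ 0 := mul_nonpos_of_nonpos_of_nonneg hd0 (by linarith)
    have h2 : 0 ≤ 3 * (1 - 2 * z) * (w + 4) * (σ - 3) := mul_nonneg hpos (by linarith)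
    linarith
  push Not at hd0
  -- S - 3 ≤ (σ-3)(σ+3)/2
  have h1 : d * (S - 3) ≤ d * ((σ - 3) * (σ + 3) / 2) := by
    apply mul_le_mul_of_nonneg_left _ hd0.le
    nlinarith
  have h2 : d * (σ + 3) / 2 ≤ d * (3 * r + 3) / 2 := by
    have := mul_le_mul_of_nonneg_left hr hd0.le
    linarith
  -- key inequality
  have key : (r + 1) * d ≤ 2 * (1 - 2 * z) * (w + 4) := by
    obtain ⟨d1, hd1⟩ : ∃ d1, d1 = 18 * z - 9 * z ^ 2 - 69 * z ^ 3 + 24 * z ^ 4 + 48 * z ^ 5 := ⟨_, rfl⟩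
    have e1 : d ≤ d1 := by
      have hw1 : 2 * (1 - 4 * z) * (1 + z) ≤ w := by rw [hw]; gcongr
      have hw0 : 0 ≤ 2 * (1 - 4 * z) * (1 + z) := by positivity
      have hw2 : (2 * (1 - 4 * z) * (1 + z)) ^ 2 ≤ w ^ 2 := by gcongr
      have hw3 := mul_le_mul_of_nonneg_left hw2 (by positivity : (0:ℝ) ≤ 3 / 4 * (1 - z))
      rw [hd, hd1]
      nlinarith
    have e2 : 0 ≤ d1 := by linarith
    obtain ⟨r2, hr2e⟩ : ∃ r2, r2 = 1 + z / (9 * (1 - z)) + 8 * z / (9 * (1 - 4 * z)) := ⟨_, rfl⟩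
    rw [← hr2e] at hr2
    have e3 : (r + 1) * d ≤ (r2 + 1) * d1 := by
      apply mul_le_mul (by linarith) e1 hd0.le (by linarith)
    have e4 : (r2 + 1) * d1 ≤ 2 * (1 - 2 * z) * (2 * (1 - 4 * z) * (1 + z) + 4) := by
      have e5 : (r2 + 1) = (18 * ((1 - z) * (1 - 4 * z)) + (1 - 4 * z) * z + 8 * ((1 - z) * z)) / (9 * (1 - z) * (1 - 4 * z)) := by
        rw [hr2e, eq_div_iff (by positivity)]
        have i1 : z / (9 * (1 - z)) * (9 * (1 - z) * (1 - 4 * z)) = z * (1 - 4 * z) := by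
          rw [div_mul_eq_mul_div, div_eq_iff (by positivity)]; ring
        have i2 : 8 * z / (9 * (1 - 4 * z)) * (9 * (1 - z) * (1 - 4 * z)) = 8 * z * (1 - z) := by
          rw [div_mul_eq_mul_div, div_eq_iff (by positivity)]; ring
        linear_combination i1 + i2
      rw [e5, div_mul_eq_mul_div, div_le_iff₀ (by positivity), hd1]
      obtain ⟨t, ht⟩ : ∃ t, t = 1 / 6 - z := ⟨_, rfl⟩
      have hz' : z = 1 / 6 - t := by linarith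
      have ht0 : 0 ≤ t := by linarith
      have ht1 : t ≤ 1 / 6 := by linarith
      have hpoly : 2 * (1 - 2 * z) * (2 * (1 - 4 * z) * (1 + z) + 4) * (9 * (1 - z) * (1 - 4 * z))
          - (18 * ((1 - z) * (1 - 4 * z)) + (1 - 4 * z) * z + 8 * ((1 - z) * z)) * (18 * z - 9 * z ^ 2 - 69 * z ^ 3 + 24 * z ^ 4 + 48 * z ^ 5)
          = 3053 / 3888 + 32083 / 162 * t + 17879 / 9 * t ^ 2 + 39943 / 9 * t ^ 3 - 2309 / 3 * t ^ 4 - 7140 * t ^ 5 - 912 * t ^ 6 + 2880 * t ^ 7 := by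
        rw [hz']; ring
      have b4 : t ^ 4 ≤ 1 / 6 * t ^ 3 := by
        calc t ^ 4 = t * t ^ 3 := by ring
          _ ≤ 1 / 6 * t ^ 3 := by gcongr
      have b5 : t ^ 5 ≤ 1 / 36 * t ^ 3 := by
        calc t ^ 5 = t * t ^ 4 := by ring
          _ ≤ 1 / 6 * (1 / 6 * t ^ 3) := by gcongr
          _ = _ := by ring
      have b6 : t ^ 6 ≤ 1 / 216 * t ^ 3 := by
        calc t ^ 6 = t * t ^ 5 := by ring
          _ ≤ 1 / 6 * (1 / 36 * t ^ 3) := by gcongr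
          _ = _ := by ring
      have b7 : 0 ≤ t ^ 7 := by positivity
      have b2 : 0 ≤ t ^ 2 := by positivity
      have b3 : 0 ≤ t ^ 3 := by positivity
      linarith
    have e6 : 2 * (1 - 2 * z) * (2 * (1 - 4 * z) * (1 + z) + 4) ≤ 2 * (1 - 2 * z) * (w + 4) := by
      have : 0 ≤ 2 * (1 - 2 * z) := by linarith
      rw [hw]
      gcongr
    linarith
  have h3 : d * (S - 3) ≤ (σ - 3) * (d * (3 * r + 3) / 2) := by
    have := mul_le_mul_of_nonneg_left h2 (by linarith : 0 ≤ σ - 3)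
    linarith
  have h4 : (σ - 3) * (d * (3 * r + 3) / 2) ≤ (σ - 3) * (3 * (1 - 2 * z) * (w + 4)) := by
    apply mul_le_mul_of_nonneg_left _ (by linarith)
    linarith
  linarith

end Pool.Agent.Helper238.Rob
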