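import Pool.Agent.Helper238.Rob.M

set_option autoImplicit false

namespace Pool.Agent.Helper238.Rob

noncomputable def fd (z w : ℝ) : ℝ := 6 * (1 - 2 * z) - 3 / 2 * w - 3 / 4 * (1 - z) * w ^ 2
noncomputable def fCp (z w : ℝ) : ℝ := 3 - 6 * z + 24 * z ^ 2 - 3 / 2 * w * (1 + z - 4 * z ^ 2)
noncomputable def fT1 (z w : ℝ) : ℝ :=
  -(3 / 4) * (1 - z) * w ^ 2 + w * (3 / 4 - 15 / 4 * z + 3 * z ^ 2) + 3 / 2 + 9 * z + 12 * z ^ 2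
noncomputable def fT2 (z w : ℝ) : ℝ :=
  -(9 / 4) * (1 - z) * w ^ 2 + w * (45 / 4 - 81 / 4 * z + 9 * z ^ 2) - 27 / 2 + 99 * z + 36 * z ^ 2
noncomputable def fD (z w : ℝ) : ℝ := 2 * (1 + 2 * z) - (1 - z) * w

theorem Pneg {z w : ℝ} (hz0 : 1 / 6 ≤ z) (hz : z ≤ 1 / 4) (hw0 : 0 ≤ w) (hw1 : w ≤ 1) :
    -4 * z * fd z w - 3 * z * (w + 4) * (1 / 2 - 41 / 120 * (1 - 4 * z))
      + 1 / 4 * (3 / 2 * fD z w + 3 / 2 * (1 - 4 * z) * fT1 z w + 13 / 45 * fT2 z w) ≤ 0 := by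
  have e : -4 * z * fd z w - 3 * z * (w + 4) * (1 / 2 - 41 / 120 * (1 - 4 * z))
      + 1 / 4 * (3 / 2 * fD z w + 3 / 2 * (1 - 4 * z) * fT1 z w + 13 / 45 * fT2 z w)
      = (1 - w) * (27 / 80 - 129 / 8 * z + 126 / 5 * z ^ 2 - 18 * z ^ 3)
        + w * (49 / 80 - 193 / 20 * z + 195 / 8 * z ^ 2 - 45 / 2 * z ^ 3)
        - (w * (1 - w)) * ((1 - z) * (3 * z - 9 / 32 * (1 - 4 * z) - 13 / 80)) := by
    unfold fd fD fT1 fT2; ring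
  rw [e]
  have h1 : 27 / 80 - 129 / 8 * z + 126 / 5 * z ^ 2 - 18 * z ^ 3 ≤ 0 := by
    nlinarith [mul_nonneg (sub_nonneg.2 hz0) (sub_nonneg.2 hz), pow_pos (by linarith : 0 < z) 3]
  have h2 : 49 / 80 - 193 / 20 * z + 195 / 8 * z ^ 2 - 45 / 2 * z ^ 3 ≤ 0 := by
    nlinarith [mul_nonneg (sub_nonneg.2 hz0) (sub_nonneg.2 hz), pow_pos (by linarith : 0 < z) 3,
      mul_nonneg (mul_nonneg (sub_nonneg.2 hz0) (sub_nonneg.2 hz)) (by linarith : 0 ≤ z)]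
  have h3 : 0 ≤ (1 - z) * (3 * z - 9 / 32 * (1 - 4 * z) - 13 / 80) :=
    mul_nonneg (by linarith) (by linarith)
  have h4 := mul_nonneg (sub_nonneg.2 hw1) (neg_nonneg.2 h1)
  have h5 := mul_nonneg hw0 (neg_nonneg.2 h2)
  have h6 := mul_nonneg (mul_nonneg hw0 (sub_nonneg.2 hw1)) h3
  linarith

theorem fT1_nonneg {z w : ℝ} (hz0 : 1 / 6 ≤ z) (hz : z ≤ 1 / 4) (hw0 : 0 ≤ w) (hw1 : w ≤ 1) : 0 ≤ fT1 z w := by
  unfold fT1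
  have h1 : 0 ≤ w * (3 / 4 - 15 / 4 * z + 3 * z ^ 2) := mul_nonneg hw0 (by nlinarith)
  have h2 : w ^ 2 ≤ 1 := by nlinarith
  have h3 : (1 - z) * w ^ 2 ≤ 1 * 1 := by
    apply mul_le_mul (by linarith) h2 (sq_nonneg _) (by norm_num)
  nlinarith

theorem fT2_nonneg {z w : ℝ} (hz0 : 1 / 6 ≤ z) (hz : z ≤ 1 / 4) (hw0 : 0 ≤ w) (hw1 : w ≤ 1) : 0 ≤ fT2 z w := by
  unfold fT2
  have h2 : w ^ 2 ≤ w := by nlinarith
  have h3 : (1 - z) * w ^ 2 ≤ 1 * w := by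
    apply mul_le_mul (by linarith) h2 (sq_nonneg _) (by norm_num)
  have h4 : 0 ≤ w * (9 - 81 / 4 * z + 9 * z ^ 2) := mul_nonneg hw0 (by nlinarith)
  nlinarith

theorem fCp_nonneg {z w : ℝ} (hz0 : 1 / 6 ≤ z) (hz : z ≤ 1 / 4) (hw0 : 0 ≤ w) (hw1 : w ≤ 1) : 0 ≤ fCp z w := by
  unfold fCp
  have h3 : 3 / 2 * w * (1 + z - 4 * z ^ 2) ≤ 3 / 2 * 1 * (1 + z - 4 * z ^ 2) := by
    have : 0 ≤ 1 + z - 4 * z ^ 2 := by nlinarith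
    gcongr
  nlinarith

theorem fd_nonneg {z w : ℝ} (hz : z ≤ 1 / 4) (hz' : 0 ≤ z) (hw0 : 0 ≤ w) (hw1 : w ≤ 1) : 0 ≤ fd z w := by
  unfold fd
  have h2 : w ^ 2 ≤ 1 := by nlinarith
  have h3 : (1 - z) * w ^ 2 ≤ 1 * 1 := by
    apply mul_le_mul (by linarith) h2 (sq_nonneg _) (by norm_num)
  nlinarith

theorem fD_nonneg {z w : ℝ} (hz : z ≤ 1 / 4) (hz' : 0 ≤ z) (hw0 : 0 ≤ w) (hw1 : w ≤ 1) : 0 ≤ fD z w := by
  unfold fD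
  have h3 : (1 - z) * w ≤ 1 * 1 := by
    apply mul_le_mul (by linarith) hw1 hw0 (by norm_num)
  nlinarith

/-- expansion of the form around equal weights -/
theorem Qh_expand {z w p1 p2 p3 q x1 x2 τ : ℝ} (h1 : p1 ^ 2 = q + x1) (h2 : p2 ^ 2 = q + x2)
    (h3 : p3 ^ 2 = q + (-x1 - x2)) :
    Qh z w p1 p2 p3 (1 - τ * x1) (1 - τ * x2) (1 - τ * (-x1 - x2))
      = 3 * fd z w * (q - 1) - 3 * (1 - 2 * z) * (w + 4) * (p1 + p2 + p3 - 3)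
        - 2 * τ * (fd z w * (x1 ^ 2 + x2 ^ 2 + (-x1 - x2) ^ 2)
            + 3 * z * (w + 4) * (x1 * p1 + x2 * p2 + (-x1 - x2) * p3))
        + τ ^ 2 * ((x1 ^ 2 + x2 ^ 2 + (-x1 - x2) ^ 2) * (qG1 z w * q + qG2 z w * q / 2 + qm1 z w - qm2 z w
              - (p1 + p2 + p3) * (4 * z * fD z w))
            + x1 * x2 * (-x1 - x2) * (3 * qG1 z w + 6 * qG2 z w)
            + fCp z w * (p1 * x1 ^ 2 + p2 * x2 ^ 2 + p3 * (-x1 - x2) ^ 2)) := by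
  unfold Qh
  rw [h1, h2, h3]
  unfold qG1 qG2 qm1 qm2 q00 qgg qgs q01 fd fD fCp
  ring

end Pool.Agent.Helper238.Rob
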