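import Pool.Agent.Helper238.Rob.N

set_option autoImplicit false

namespace Pool.Agent.Helper238.Rob

theorem le_half_one_add_sq {p : ℝ} : p ≤ (1 + p ^ 2) / 2 := by nlinarith [sq_nonneg (p - 1)]

/-- shape bounds when no corner is sharp -/
theorem shape {z q x1 x2 x3 p1 p2 p3 : ℝ} (hz0 : 1 / 6 ≤ z) (hz : z < 1 / 4) (hq : 0 < q)
    (hx : x1 + x2 + x3 = 0) (h1 : p1 ^ 2 = q + x1) (h2 : p2 ^ 2 = q + x2) (h3 : p3 ^ 2 = q + x3)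
    (hp1 : 0 < p1) (hp2 : 0 < p2) (hp3 : 0 < p3)
    (hqn : q ^ 2 = 1 + 2 / 3 * (x1 ^ 2 + x2 ^ 2 + x3 ^ 2))
    (n1 : p2 ^ 2 + p3 ^ 2 - p1 ^ 2 ≤ (1 - 2 * z) * (2 * p2 * p3))
    (n2 : p3 ^ 2 + p1 ^ 2 - p2 ^ 2 ≤ (1 - 2 * z) * (2 * p3 * p1))
    (n3 : p1 ^ 2 + p2 ^ 2 - p3 ^ 2 ≤ (1 - 2 * z) * (2 * p1 * p2)) :
    2 / 3 * (x1 ^ 2 + x2 ^ 2 + x3 ^ 2) ≤ 3 * (1 - 4 * z) ^ 2 := by
  obtain ⟨b, hb⟩ : ∃ b, b = 1 - 4 * z := ⟨_, rfl⟩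
  have hb0 : 0 < b := by rw [hb]; linarith
  have hb1 : b ≤ 1 / 3 := by rw [hb]; linarith
  have hz' : 1 - 2 * z = (1 + b) / 2 := by rw [hb]; ring
  rw [hz'] at n1 n2 n3
  rw [← hb]
  obtain ⟨n, hn⟩ : ∃ n, n = x1 ^ 2 + x2 ^ 2 + x3 ^ 2 := ⟨_, rfl⟩
  rw [← hn] at hqn ⊢
  have m1 : 2 * p2 * p3 ≤ p2 ^ 2 + p3 ^ 2 := by nlinarith [sq_nonneg (p2 - p3)]
  have m2 : 2 * p3 * p1 ≤ p3 ^ 2 + p1 ^ 2 := by nlinarith [sq_nonneg (p3 - p1)]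
  have m3 : 2 * p1 * p2 ≤ p1 ^ 2 + p2 ^ 2 := by nlinarith [sq_nonneg (p1 - p2)]
  have k1 := mul_le_mul_of_nonneg_left m1 (by linarith : 0 ≤ (1 + b) / 2)
  have k2 := mul_le_mul_of_nonneg_left m2 (by linarith : 0 ≤ (1 + b) / 2)
  have k3 := mul_le_mul_of_nonneg_left m3 (by linarith : 0 ≤ (1 + b) / 2)
  rw [h1, h2, h3] at n1 n2 n3
  rw [h2, h3] at k1
  rw [h3, h1] at k2
  rw [h1, h2] at k3
  have hx1 : x1 = - x2 - x3 := by linarith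
  have t1 : 0 ≤ (3 - b) * x1 + 2 * b * q := by
    have : (1 + b) / 2 * (q + x2 + (q + x3)) = (1 + b) / 2 * (2 * q - x1) := by rw [hx1]; ring
    rw [this] at k1
    have e : q + x2 + (q + x3) - (q + x1) = q - 2 * x1 := by rw [hx1]; ring
    rw [e] at n1
    nlinarith
  have t2 : 0 ≤ (3 - b) * x2 + 2 * b * q := by
    have : (1 + b) / 2 * (q + x3 + (q + x1)) = (1 + b) / 2 * (2 * q - x2) := by rw [hx1]; ring
    rw [this] at k2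
    have e : q + x3 + (q + x1) - (q + x2) = q - 2 * x2 := by rw [hx1]; ring
    rw [e] at n2
    nlinarith
  have t3 : 0 ≤ (3 - b) * x3 + 2 * b * q := by
    have : (1 + b) / 2 * (q + x1 + (q + x2)) = (1 + b) / 2 * (2 * q - x3) := by rw [hx1]; ring
    rw [this] at k3
    have e : q + x1 + (q + x2) - (q + x3) = q - 2 * x3 := by rw [hx1]; ring
    rw [e] at n3
    nlinarith
  have hsum : (3 - b) ^ 2 * n ≤ 24 * b ^ 2 * q ^ 2 := by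
    have e : ((3 - b) * x1 + 2 * b * q) ^ 2 + ((3 - b) * x2 + 2 * b * q) ^ 2 + ((3 - b) * x3 + 2 * b * q) ^ 2
        = (3 - b) ^ 2 * n + 12 * b ^ 2 * q ^ 2 := by
      rw [hn, hx1]; ring
    have e2 : ((3 - b) * x1 + 2 * b * q) + ((3 - b) * x2 + 2 * b * q) + ((3 - b) * x3 + 2 * b * q) = 6 * b * q := by
      rw [hx1]; ring
    obtain ⟨s1, hs1⟩ : ∃ s, s = (3 - b) * x1 + 2 * b * q := ⟨_, rfl⟩
    obtain ⟨s2, hs2⟩ : ∃ s, s = (3 - b) * x2 + 2 * b * q := ⟨_, rfl⟩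
    obtain ⟨s3, hs3⟩ : ∃ s, s = (3 - b) * x3 + 2 * b * q := ⟨_, rfl⟩
    rw [← hs1] at t1 e e2
    rw [← hs2] at t2 e e2
    rw [← hs3] at t3 e e2
    have h5 : s1 ^ 2 + s2 ^ 2 + s3 ^ 2 ≤ (s1 + s2 + s3) ^ 2 := by
      nlinarith [mul_nonneg t1 t2, mul_nonneg t2 t3, mul_nonneg t1 t3]
    rw [e, e2] at h5
    linarith
  rw [hqn] at hsum
  have hn0 : 0 ≤ n := by rw [hn]; positivity
  have hcoef : 16 / 3 ≤ (3 - b) ^ 2 - 16 * b ^ 2 := by nlinarith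
  have := mul_le_mul_of_nonneg_right hcoef hn0
  linarith

theorem S1_point {q g b R c0 x p : ℝ} (hp : 0 < p) (hg0 : 0 < g) (hg2 : g ^ 2 = q) (hpx : p ^ 2 = q + x)
    (hxR : x ≤ R) (hqb : q - 1 ≤ 3 / 2 * b ^ 2) (hRb : R ≤ 26 / 15 * b) (hb0 : 0 < b) (hb1 : b ≤ 1 / 3)
    (hc0 : c0 = 1 / 2 - 41 / 120 * b) : x * g + c0 * x ^ 2 ≤ x * p := by
  have hb2 : b ^ 2 ≤ b / 3 := by nlinarith
  have hM : p + g ≤ 2 + 41 / 30 * b := by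
    have i1 := le_half_one_add_sq (p := p)
    have i2 := le_half_one_add_sq (p := g)
    rw [hpx] at i1
    rw [hg2] at i2
    linarith
  have hpg : x = (p - g) * (p + g) := by linear_combination hg2 - hpx
  have hpg0 : 0 < p + g := by positivity
  have hc0p : 0 < c0 := by rw [hc0]; linarith
  have hk : c0 * (p + g) ≤ 1 := by
    have : c0 * (p + g) ≤ c0 * (2 + 41 / 30 * b) := by gcongr
    have h5 : c0 * (2 + 41 / 30 * b) ≤ 1 := by rw [hc0]; nlinarith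
    linarith
  have e : x * p - (x * g + c0 * x ^ 2) = (p - g) ^ 2 * (p + g) * (1 - c0 * (p + g)) := by
    rw [hpg]; ring
  have : 0 ≤ (p - g) ^ 2 * (p + g) * (1 - c0 * (p + g)) := by
    apply mul_nonneg (by positivity); linarith
  linarith

theorem caseII {z w p1 p2 p3 : ℝ} (hz0 : 1 / 6 ≤ z) (hz : z < 1 / 4) (hw0 : 0 ≤ w) (hw1 : w ≤ 1)
    (hp1 : 0 < p1) (hp2 : 0 < p2) (hp3 : 0 < p3)
    (hσ : 3 ≤ p1 + p2 + p3)
    (harea : 4 * p2 ^ 2 * p3 ^ 2 - (p2 ^ 2 + p3 ^ 2 - p1 ^ 2) ^ 2 = 3)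
    (n1 : p2 ^ 2 + p3 ^ 2 - p1 ^ 2 ≤ (1 - 2 * z) * (2 * p2 * p3))
    (n2 : p3 ^ 2 + p1 ^ 2 - p2 ^ 2 ≤ (1 - 2 * z) * (2 * p3 * p1))
    (n3 : p1 ^ 2 + p2 ^ 2 - p3 ^ 2 ≤ (1 - 2 * z) * (2 * p1 * p2)) :
    ∃ a1 a2 a3 : ℝ, 0 < a1 ∧ 0 < a2 ∧ 0 < a3 ∧ Qh z w p1 p2 p3 a1 a2 a3 ≤ 0 := by
  obtain ⟨q, hq⟩ : ∃ q, q = (p1 ^ 2 + p2 ^ 2 + p3 ^ 2) / 3 := ⟨_, rfl⟩
  obtain ⟨x1, hx1⟩ : ∃ x1, x1 = p1 ^ 2 - q := ⟨_, rfl⟩
  obtain ⟨x2, hx2⟩ : ∃ x2, x2 = p2 ^ 2 - q := ⟨_, rfl⟩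
  have h1 : p1 ^ 2 = q + x1 := by rw [hx1]; ring
  have h2 : p2 ^ 2 = q + x2 := by rw [hx2]; ring
  have h3 : p3 ^ 2 = q + (-x1 - x2) := by rw [hx1, hx2, hq]; ring
  have hq0 : 0 < q := by rw [hq]; positivity
  obtain ⟨n, hn⟩ : ∃ n, n = x1 ^ 2 + x2 ^ 2 + (-x1 - x2) ^ 2 := ⟨_, rfl⟩
  have hn0 : 0 ≤ n := by rw [hn]; positivity
  have hqn : q ^ 2 = 1 + 2 / 3 * n := by
    rw [hn]
    have e : 4 * p2 ^ 2 * p3 ^ 2 - (p2 ^ 2 + p3 ^ 2 - p1 ^ 2) ^ 2 = 3 * q ^ 2 - 2 * (x1 ^ 2 + x2 ^ 2 + (-x1 - x2) ^ 2) := by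
      rw [h1, h2, h3]; ring
    rw [e] at harea
    linarith
  have hsh := shape hz0 hz hq0 (by ring : x1 + x2 + (-x1 - x2) = 0) h1 h2 h3 hp1 hp2 hp3 (by rw [← hn]; exact hqn) n1 n2 n3
  rw [← hn] at hsh
  obtain ⟨b, hb⟩ : ∃ b, b = 1 - 4 * z := ⟨_, rfl⟩
  have hb0 : 0 < b := by rw [hb]; linarith
  have hb1 : b ≤ 1 / 3 := by rw [hb]; linarith
  rw [← hb] at hsh
  obtain ⟨R, hR⟩ : ∃ R, R = Real.sqrt (2 / 3 * n) := ⟨_, rfl⟩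
  have hR0 : 0 ≤ R := by rw [hR]; exact Real.sqrt_nonneg _
  have hR2 : R ^ 2 = 2 / 3 * n := by rw [hR]; exact Real.sq_sqrt (by positivity)
  have hRb : R ≤ 26 / 15 * b := by
    rw [hR]
    exact Real.sqrt_le_iff.2 ⟨by positivity, by nlinarith only [hsh, sq_nonneg b]⟩
  -- bounds for q
  have hq1 : 1 ≤ q := by nlinarith
  have hqR : q - 1 ≤ R ^ 2 / 2 := by nlinarith
  have hqR' : q - 1 ≤ 3 / 2 * b ^ 2 := by rw [hR2] at hqR; linarith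
  have hq3 : 3 * (q - 1) ≤ n := by nlinarith
  -- |x_i| ≤ R
  have hxR : ∀ y : ℝ, y ^ 2 ≤ 2 / 3 * n → |y| ≤ R := by
    intro y hy
    rw [hR]; exact Real.abs_le_sqrt hy
  have r1 := hxR x1 (by rw [hn]; nlinarith [sq_nonneg (x1 + 2 * x2)])
  have r2 := hxR x2 (by rw [hn]; nlinarith [sq_nonneg (x2 + 2 * x1)])
  have r3 := hxR (-x1 - x2) (by rw [hn]; nlinarith [sq_nonneg (x1 - x2)])
  have s1 := (abs_le.1 r1).2
  have s2 := (abs_le.1 r2).2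
  have s3 := (abs_le.1 r3).2
  -- e3
  obtain ⟨e3, he3⟩ : ∃ e3, e3 = x1 * x2 * (-x1 - x2) := ⟨_, rfl⟩
  have he3b : e3 ≤ n * R / 6 := by
    have hsq : e3 ^ 2 ≤ (n * R / 6) ^ 2 := by
      have e : (n * R / 6) ^ 2 = n ^ 3 / 54 := by
        have : (n * R / 6) ^ 2 = n ^ 2 * R ^ 2 / 36 := by ring
        rw [this, hR2]; ring
      have e' : n ^ 3 / 54 - e3 ^ 2 = ((x1 - x2) * (2 * x1 + x2) * (x1 + 2 * x2)) ^ 2 / 27 := by
        rw [hn, he3]; ring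
      have : 0 ≤ ((x1 - x2) * (2 * x1 + x2) * (x1 + 2 * x2)) ^ 2 / 27 := by positivity
      rw [e]; linarith
    exact le_of_abs_le (abs_le_of_sq_le_sq hsq (by positivity))
  -- S1
  obtain ⟨c0, hc0⟩ : ∃ c0, c0 = 1 / 2 - 41 / 120 * b := ⟨_, rfl⟩
  have hc0p : 0 < c0 := by rw [hc0]; linarith
  have hS1 : c0 * n ≤ x1 * p1 + x2 * p2 + (-x1 - x2) * p3 := by
    obtain ⟨g, hg⟩ : ∃ g, g = Real.sqrt q := ⟨_, rfl⟩
    have hg0 : 0 < g := by rw [hg]; exact Real.sqrt_pos.2 hq0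
    have hg2 : g ^ 2 = q := by rw [hg]; exact Real.sq_sqrt hq0.le
    have j1 := S1_point hp1 hg0 hg2 h1 s1 hqR' hRb hb0 hb1 hc0
    have j2 := S1_point hp2 hg0 hg2 h2 s2 hqR' hRb hb0 hb1 hc0
    have j3 := S1_point hp3 hg0 hg2 h3 s3 hqR' hRb hb0 hb1 hc0
    rw [hn]
    linarith only [j1, j2, j3]
  -- S2
  have hS2 : p1 * x1 ^ 2 + p2 * x2 ^ 2 + p3 * (-x1 - x2) ^ 2 ≤ ((1 + q) * n + 3 * e3) / 2 := by
    have hone : ∀ x p : ℝ, p ^ 2 = q + x → p * x ^ 2 ≤ (1 + q + x) / 2 * x ^ 2 := by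
      intro x p hpx
      have i1 := le_half_one_add_sq (p := p)
      rw [hpx] at i1
      have : p ≤ (1 + q + x) / 2 := by linarith
      gcongr
    have j1 := hone x1 p1 h1
    have j2 := hone x2 p2 h2
    have j3 := hone (-x1 - x2) p3 h3
    have e : (1 + q + x1) / 2 * x1 ^ 2 + (1 + q + x2) / 2 * x2 ^ 2 + (1 + q + (-x1 - x2)) / 2 * (-x1 - x2) ^ 2
        = ((1 + q) * n + 3 * e3) / 2 := by rw [hn, he3]; ring
    linarith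
  obtain ⟨τ, hτ⟩ : ∃ τ, τ = 1 / (2 * b) := ⟨_, rfl⟩
  have hτ0 : 0 < τ := by rw [hτ]; positivity
  have hτb : τ * b = 1 / 2 := by rw [hτ]; field_simp
  have hapos : ∀ x : ℝ, x ≤ R → 0 < 1 - τ * x := by
    intro x hx
    have : τ * x ≤ τ * (26 / 15 * b) := by
      apply mul_le_mul_of_nonneg_left _ hτ0.le; linarith
    have h5 : τ * (26 / 15 * b) = 26 / 30 := by
      have : τ * (26 / 15 * b) = 26 / 15 * (τ * b) := by ring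
      rw [this, hτb]; norm_num
    linarith
  refine ⟨1 - τ * x1, 1 - τ * x2, 1 - τ * (-x1 - x2), hapos _ s1, hapos _ s2, hapos _ s3, ?_⟩
  rw [Qh_expand h1 h2 h3, ← hn, ← he3]
  have hz4 : z ≤ 1 / 4 := hz.le
  have hz00 : 0 ≤ z := by linarith
  have pd := fd_nonneg hz4 hz00 hw0 hw1
  have pD := fD_nonneg hz4 hz00 hw0 hw1
  have pT1 := fT1_nonneg hz0 hz4 hw0 hw1
  have pT2 := fT2_nonneg hz0 hz4 hw0 hw1
  have pC := fCp_nonneg hz0 hz4 hw0 hw1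
  have pP := Pneg hz0 hz4 hw0 hw1
  rw [← hb, ← hc0] at pP
  have hT1e : fT1 z w = qG1 z w + qG2 z w / 2 + fCp z w / 2 := by
    unfold fT1 qG1 qG2 fCp; ring
  have hT2e : fT2 z w = 3 * qG1 z w + 6 * qG2 z w + 3 / 2 * fCp z w := by
    unfold fT2 qG1 qG2 fCp; ring
  have hDe : 3 / 2 * (b * fD z w) = qG1 z w + qG2 z w / 2 + qm1 z w - qm2 z w - 3 * (4 * z * fD z w) + fCp z w := by
    rw [hb]; unfold fD qG1 qG2 qm1 qm2 fCp; ring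
  -- bound of the bracket
  have B1 : 0 ≤ 3 * (1 - 2 * z) * (w + 4) * (p1 + p2 + p3 - 3) := by
    have : 0 ≤ 1 - 2 * z := by linarith
    have : 0 ≤ p1 + p2 + p3 - 3 := by linarith
    positivity
  have B2 : 3 * fd z w * (q - 1) ≤ fd z w * n := by
    have := mul_le_mul_of_nonneg_left hq3 pd
    linarith
  have B3 : fd z w * n + 3 * z * (w + 4) * (c0 * n)
      ≤ fd z w * n + 3 * z * (w + 4) * (x1 * p1 + x2 * p2 + (-x1 - x2) * p3) := by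
    have : 0 ≤ 3 * z * (w + 4) := by positivity
    gcongr
  have B4 : n * (qG1 z w * q + qG2 z w * q / 2 + qm1 z w - qm2 z w - (p1 + p2 + p3) * (4 * z * fD z w))
            + e3 * (3 * qG1 z w + 6 * qG2 z w)
            + fCp z w * (p1 * x1 ^ 2 + p2 * x2 ^ 2 + p3 * (-x1 - x2) ^ 2)
      ≤ n * (3 / 2 * (b * fD z w) + 3 / 2 * b ^ 2 * fT1 z w + 13 / 45 * b * fT2 z w) := by
    have c1 : n * ((p1 + p2 + p3) * (4 * z * fD z w)) ≥ n * (3 * (4 * z * fD z w)) := by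
      have : 0 ≤ 4 * z * fD z w := by positivity
      gcongr
    have c2 := mul_le_mul_of_nonneg_left hS2 pC
    have c3 : e3 * fT2 z w ≤ (n * R / 6) * fT2 z w := by gcongr
    have c4 : (n * R / 6) * fT2 z w ≤ (n * (26 / 15 * b) / 6) * fT2 z w := by gcongr
    have c5 : n * ((q - 1) * fT1 z w) ≤ n * ((3 / 2 * b ^ 2) * fT1 z w) := by gcongr
    have e : n * (qG1 z w * q + qG2 z w * q / 2 + qm1 z w - qm2 z w - 3 * (4 * z * fD z w))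
        + e3 * (3 * qG1 z w + 6 * qG2 z w) + fCp z w * (((1 + q) * n + 3 * e3) / 2)
        = n * (3 / 2 * (b * fD z w)) + n * ((q - 1) * fT1 z w) + e3 * fT2 z w := by
      rw [hT1e, hT2e, hDe]; ring
    linarith
  have B5 := mul_le_mul_of_nonneg_left B4 (sq_nonneg τ)
  have B6 := mul_le_mul_of_nonneg_left B3 (by positivity : 0 ≤ 2 * τ)
  have hfin : fd z w * n - 2 * τ * (fd z w * n + 3 * z * (w + 4) * (c0 * n))
      + τ ^ 2 * (n * (3 / 2 * (b * fD z w) + 3 / 2 * b ^ 2 * fT1 z w + 13 / 45 * b * fT2 z w)) ≤ 0 := by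
    have e : b * (fd z w * n - 2 * τ * (fd z w * n + 3 * z * (w + 4) * (c0 * n))
      + τ ^ 2 * (n * (3 / 2 * (b * fD z w) + 3 / 2 * b ^ 2 * fT1 z w + 13 / 45 * b * fT2 z w)))
        = n * (-4 * z * fd z w - 3 * z * (w + 4) * c0
      + 1 / 4 * (3 / 2 * fD z w + 3 / 2 * b * fT1 z w + 13 / 45 * fT2 z w)) := by
      have e1 : b * (fd z w * n - 2 * τ * (fd z w * n + 3 * z * (w + 4) * (c0 * n))
      + τ ^ 2 * (n * (3 / 2 * (b * fD z w) + 3 / 2 * b ^ 2 * fT1 z w + 13 / 45 * b * fT2 z w)))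
        = b * (fd z w * n) - 2 * (τ * b) * (fd z w * n + 3 * z * (w + 4) * (c0 * n))
          + (τ * b) ^ 2 * (n * (3 / 2 * fD z w + 3 / 2 * b * fT1 z w + 13 / 45 * fT2 z w)) := by ring
      rw [e1, hτb]
      have : b * (fd z w * n) = (1 - 4 * z) * (fd z w * n) := by rw [hb]
      rw [this]; ring
    have h7 : n * (-4 * z * fd z w - 3 * z * (w + 4) * c0
      + 1 / 4 * (3 / 2 * fD z w + 3 / 2 * b * fT1 z w + 13 / 45 * fT2 z w)) ≤ 0 :=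
      mul_nonpos_of_nonneg_of_nonpos hn0 pP
    rw [← e] at h7
    by_contra hcon
    push Not at hcon
    have := mul_pos hb0 hcon
    linarith
  linarith

end Pool.Agent.Helper238.Rob
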