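import Pool.Agent.Helper238.Rob.F

set_option autoImplicit false

open Real

namespace Pool.Agent.Helper238.Rob

theorem two_t {v t : ℝ} (hv0 : 0 < v) (hv1 : v < 1) (h : sinh t = v * cosh t) :
    2 * t = log (1 + v) - log (1 - v) := by
  have h1 : (1 - v) * exp (2 * t) = 1 + v := by
    rw [sinh_eq, cosh_eq] at h
    have e : exp (2 * t) = exp t * exp t := by rw [← exp_add]; congr 1; ring
    have e2 : exp (-t) * exp t = 1 := by rw [← exp_add]; simp
    rw [e]
    have h2 : (1 - v) * exp t = (1 + v) * exp (-t) := by linarith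
    calc (1 - v) * (exp t * exp t) = ((1 - v) * exp t) * exp t := by ring
      _ = (1 + v) * (exp (-t) * exp t) := by rw [h2]; ring
      _ = 1 + v := by rw [e2, mul_one]
  have hv : 0 < 1 - v := by linarith
  rw [← h1, log_mul hv.ne' (exp_pos _).ne', log_exp]
  ring

theorem t_lower {v t : ℝ} (hv0 : 0 < v) (hv1 : v < 1) (h : sinh t = v * cosh t) :
    v + v ^ 3 / 3 ≤ t := by
  have h2 := two_t hv0 hv1 h
  have hs := hasSum_log_sub_log_of_abs_lt_one (x := v) (by rw [abs_of_pos hv0]; exact hv1)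
  have h3 := sum_le_hasSum (Finset.range 2) (fun k _ => by positivity) hs
  rw [← h2] at h3
  simp [Finset.sum_range_succ] at h3
  linarith

theorem t_upper {v t : ℝ} (hv0 : 0 < v) (hv1 : v < 1) (h : sinh t = v * cosh t) :
    t ≤ v + v ^ 3 / (3 * (1 - v ^ 2)) := by
  have h2 := two_t hv0 hv1 h
  have hs := hasSum_log_sub_log_of_abs_lt_one (x := v) (by rw [abs_of_pos hv0]; exact hv1)
  have hv2 : v ^ 2 < 1 := by nlinarith
  have hg := (hasSum_geometric_of_lt_one (sq_nonneg v) hv2).mul_left (2 / 3 * v)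
  have hi : HasSum (fun k : ℕ => if k = 0 then (4 / 3 * v) else 0) (4 / 3 * v) := hasSum_ite_eq 0 _
  have hc := hg.add hi
  have hle := hasSum_le (fun k => ?_) hs hc
  · rw [← h2] at hle
    have e : 2 / 3 * v * (1 - v ^ 2)⁻¹ + 4 / 3 * v = 2 * (v + v ^ 3 / (3 * (1 - v ^ 2))) := by
      have : (1 - v ^ 2) ≠ 0 := by linarith
      field_simp
      ring
    rw [e] at hle
    linarith
  · rcases Nat.eq_zero_or_pos k with rfl | hk
    · simp; ring_nf; rfl
    · have hk' : (k : ℝ) ≥ 1 := by exact_mod_cast hk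
      rw [if_neg hk.ne', add_zero]
      have e : v ^ (2 * k + 1) = v * (v ^ 2) ^ k := by rw [← pow_mul, pow_succ]; ring
      rw [e]
      have h5 : 2 * (1 / (2 * (k:ℝ) + 1)) ≤ 2 / 3 := by
        rw [mul_one_div, div_le_div_iff₀ (by positivity) (by norm_num)]
        linarith
      calc 2 * (1 / (2 * (k:ℝ) + 1)) * (v * (v ^ 2) ^ k) ≤ 2 / 3 * (v * (v ^ 2) ^ k) := by gcongr
        _ = 2 / 3 * v * (v ^ 2) ^ k := by ring

namespace Par
variable (P : Par)

noncomputable def r : ℝ := P.k / (6 * P.s)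

theorem w_r : P.w = 2 * (1 - 4 * P.z) * P.r := by
  have hs := P.s_pos
  unfold w r b
  field_simp
  ring

theorem r_lower : 1 + P.z ≤ P.r := by
  have hs := P.s_pos
  have hs2 := P.s_lt
  have h1 := t_lower hs (by linarith) P.hx
  have h2 := t_lower (v := 2 * P.s) (by linarith) (by linarith) P.hy
  unfold r k z
  rw [le_div_iff₀ (by positivity)]
  nlinarith

theorem r_upper : P.r ≤ 1 + P.z / (9 * (1 - P.z)) + 8 * P.z / (9 * (1 - 4 * P.z)) := by
  have hs := P.s_pos
  have hs2 := P.s_lt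
  have h1 := t_upper hs (by linarith) P.hx
  have h2 := t_upper (v := 2 * P.s) (by linarith) (by linarith) P.hy
  have ha := P.a_pos
  have hb := P.b_pos
  unfold a at ha
  unfold b at hb
  unfold r k
  rw [div_le_iff₀ (by positivity)]
  have e1 : P.s ^ 3 / (3 * (1 - P.s ^ 2)) = P.s * (P.z / (3 * (1 - P.z))) := by
    unfold z; ring
  have e2 : (2 * P.s) ^ 3 / (3 * (1 - (2 * P.s) ^ 2)) = P.s * (8 * P.z / (3 * (1 - 4 * P.z))) := by
    unfold z; ring
  rw [e1] at h1
  rw [e2] at h2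
  have e3 : (1 + P.z / (9 * (1 - P.z)) + 8 * P.z / (9 * (1 - 4 * P.z))) * (6 * P.s)
      = 2 * (P.s + P.s * (P.z / (3 * (1 - P.z))) + (2 * P.s + P.s * (8 * P.z / (3 * (1 - 4 * P.z))))) := by
    field_simp
    ring
  rw [e3]
  linarith

theorem w_le_one (hz : 1 / 6 ≤ P.z) : P.w ≤ 1 := by
  have h1 := P.r_upper
  have ha := P.a_pos
  have hb := P.b_pos
  have hz4 := P.z_lt
  unfold a at ha
  unfold b at hb
  rw [P.w_r]
  have h2 : 2 * (1 - 4 * P.z) * P.r ≤ 2 * (1 - 4 * P.z) * (1 + P.z / (9 * (1 - P.z)) + 8 * P.z / (9 * (1 - 4 * P.z))) := by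
    gcongr
  have h3 : 2 * (1 - 4 * P.z) * (1 + P.z / (9 * (1 - P.z)) + 8 * P.z / (9 * (1 - 4 * P.z)))
      = 2 * (1 - 4 * P.z) + 16 / 9 * P.z + 2 / 9 * ((1 - 4 * P.z) * (P.z / (1 - P.z))) := by
    field_simp
    ring
  have h4 : P.z / (1 - P.z) ≤ 1 / 3 := by
    rw [div_le_iff₀ ha]; linarith
  have h5 : (1 - 4 * P.z) * (P.z / (1 - P.z)) ≤ 1 / 3 * (1 / 3) := by
    apply mul_le_mul (by linarith) h4 (by have := P.z_pos; positivity) (by norm_num)
  rw [h3] at h2
  linarith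

end Par
end Pool.Agent.Helper238.Rob
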