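import Pool.Agent.Helper238.Rob.F

set_option autoImplicit false

open Real

namespace Pool.Agent.Helper238.Rob

/-- for every coupling there is a parameter of the ground state -/
theorem exists_par {c : ℝ} (hc : 0 < c) : ∃ P : Par, P.k * P.s = c := by
  obtain ⟨s, hs⟩ : ∃ s : ℝ → ℝ, s = fun y => sinh y / cosh y / 2 := ⟨_, rfl⟩
  obtain ⟨g, hg⟩ : ∃ g : ℝ → ℝ, g = fun y => 1 / 2 * log ((1 + s y) / (1 - s y)) := ⟨_, rfl⟩
  have scont : Continuous s := by
    rw [hs]
    exact (continuous_sinh.div continuous_cosh fun y => (cosh_pos y).ne').div_const 2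
  have s_lt : ∀ y, s y < 1 / 2 := by
    intro y; rw [hs]
    have := tanh_lt_one y
    rw [tanh_eq_sinh_div_cosh] at this
    simp only; linarith
  have s_gt : ∀ y, -(1 / 2) < s y := by
    intro y; rw [hs]
    have := neg_one_lt_tanh y
    rw [tanh_eq_sinh_div_cosh] at this
    simp only; linarith
  have gcont : Continuous g := by
    rw [hg]
    apply Continuous.mul continuous_const
    apply Continuous.log
    · apply Continuous.div (by fun_prop) (by fun_prop)
      intro y; have := s_lt y; linarith
    · intro y
      have h1 := s_lt y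
      have h2 := s_gt y
      have : 0 < (1 + s y) / (1 - s y) := div_pos (by linarith) (by linarith)
      exact this.ne'
  have gart : ∀ y, g y = artanh (s y) := by
    intro y
    rw [hg, artanh_eq_half_log ⟨by linarith [s_gt y], by linarith [s_lt y]⟩]
  have hcont : ContinuousOn (fun y => 2 * (g y + y) * s y) (Set.Icc 0 (c + 1)) := by
    apply Continuous.continuousOn; fun_prop
  have s0 : s 0 = 0 := by rw [hs]; simp
  have spos : ∀ y, 0 < y → 0 < s y := by
    intro y hy; rw [hs]
    have := sinh_pos_iff.2 hy
    have := cosh_pos y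
    simp only; positivity
  have himg := intermediate_value_Icc (by linarith : (0:ℝ) ≤ c + 1) hcont
  have hmem : c ∈ Set.Icc ((fun y => 2 * (g y + y) * s y) 0) ((fun y => 2 * (g y + y) * s y) (c + 1)) := by
    constructor
    · simp only [s0]; linarith
    · simp only
      have hY : 0 < c + 1 := by linarith
      have hsY := spos _ hY
      have hgY : 0 ≤ g (c + 1) := by
        rw [gart]; exact artanh_nonneg hsY.le
      have h1 : c ≤ 2 * (c + 1) * s (c + 1) := by
        rw [hs]
        simp only
        have hch := cosh_pos (c + 1)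
        have e : 2 * (c + 1) * (sinh (c + 1) / cosh (c + 1) / 2) = (c + 1) * sinh (c + 1) / cosh (c + 1) := by
          field_simp
        rw [e, le_div_iff₀ hch, sinh_eq, cosh_eq]
        have h2 : (c + 1) * exp (-(c + 1)) * 2 ≤ exp (c + 1) + exp (-(c + 1)) := by
          have h3 := add_one_le_exp (2 * (c + 1))
          have h4 : exp (c + 1) = exp (2 * (c + 1)) * exp (-(c + 1)) := by
            rw [← exp_add]; congr 1; ring
          rw [h4]
          have h5 := exp_pos (-(c + 1))
          nlinarith
        nlinarith
      have h2 : 0 ≤ 2 * g (c + 1) * s (c + 1) := by positivity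
      linarith
  obtain ⟨y, hy, hyc⟩ := himg hmem
  have hy0 : 0 < y := by
    rcases hy.1.eq_or_lt with h | h
    · exfalso
      simp only [← h, s0] at hyc
      linarith
    · exact h
  simp only at hyc
  have hsy := spos y hy0
  have hsy2 := s_lt y
  refine ⟨⟨s y, g y, y, hsy, hsy2, ?_, ?_, ?_, hy0⟩, ?_⟩
  · rw [gart, sinh_artanh ⟨by linarith, by linarith⟩, cosh_artanh ⟨by linarith, by linarith⟩]
    ring
  · rw [hs]; have := cosh_pos y; field_simp
  · rw [gart]; exact artanh_pos ⟨hsy, by linarith⟩
  · unfold Par.k; exact hyc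

end Pool.Agent.Helper238.Rob
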