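import Pool.Agent.Helper238.Rob.K
import Pool.Agent.Helper238.Rob.O
import Pool.Agent.Helper238.Rob.S
import Pool.Agent.Helper238.Rob.T

set_option autoImplicit false

open MeasureTheory Set

namespace Pool.Agent.Helper238.Rob

open Pool.Agent.Helper238

theorem lagrange (A B C : E2) : 4 * sd (C - A) * sd (B - A) - (sd (C - A) + sd (B - A) - sd (B - C)) ^ 2
    = 4 * cr (B - A) (C - A) ^ 2 := by
  simp only [sd, cr, PiLp.sub_apply]; ring

theorem upper {A B C : E2} (hD : cr (B - A) (C - A) ≠ 0) (P : Par) {l : ℝ} (hl : 0 < l)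
    (harea : cr (B - A) (C - A) ^ 2 = 3 / 4 * l ^ 4) :
    lam1 (interior (tri A B C)) (-(P.k * P.s * l / |cr (B - A) (C - A)|))
      ≤ -(P.k * l / |cr (B - A) (C - A)|) ^ 2 := by
  have hB : cr (C - B) (A - B) ≠ 0 := by rw [cr_cyc A B C]; exact hD
  have hC : cr (A - C) (B - C) ≠ 0 := by rw [cr_cyc2 A B C]; exact hD
  have hs := P.s_pos
  have hz := P.z_pos
  have hz4 := P.z_lt
  obtain ⟨p1, hp1⟩ : ∃ p1, p1 = dist B C / l := ⟨_, rfl⟩
  obtain ⟨p2, hp2⟩ : ∃ p2, p2 = dist C A / l := ⟨_, rfl⟩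
  obtain ⟨p3, hp3⟩ : ∃ p3, p3 = dist A B / l := ⟨_, rfl⟩
  have h1 : dist B C = l * p1 := by rw [hp1]; field_simp
  have h2 : dist C A = l * p2 := by rw [hp2]; field_simp
  have h3 : dist A B = l * p3 := by rw [hp3]; field_simp
  have q1 : 0 < p1 := by rw [hp1]; have := dist_pos.2 (ne_of_cr hB); positivity
  have q2 : 0 < p2 := by rw [hp2]; have := dist_pos.2 (ne_of_cr hC); positivity
  have q3 : 0 < p3 := by rw [hp3]; have := dist_pos.2 (ne_of_cr hD); positivity
  have t1 : p1 ≤ p2 + p3 := by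
    have := dist_triangle B A C
    rw [dist_comm B A, dist_comm A C, h1, h2, h3] at this
    nlinarith
  have t2 : p2 ≤ p1 + p3 := by
    have := dist_triangle C B A
    rw [dist_comm C B, dist_comm B A, h1, h2, h3] at this
    nlinarith
  have t3 : p3 ≤ p1 + p2 := by
    have := dist_triangle A C B
    rw [dist_comm A C, dist_comm C B, h1, h2, h3] at this
    nlinarith
  have ar : 4 * p2 ^ 2 * p3 ^ 2 - (p2 ^ 2 + p3 ^ 2 - p1 ^ 2) ^ 2 = 3 := by
    have hL := lagrange A B C
    have l1 : sd (B - C) = (l * p1) ^ 2 := by rw [← norm_sq, ← dist_eq_norm, h1]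
    have l2 : sd (C - A) = (l * p2) ^ 2 := by rw [← norm_sq, ← dist_eq_norm, h2]
    have l3 : sd (B - A) = (l * p3) ^ 2 := by rw [← norm_sq, ← dist_eq_norm, dist_comm, h3]
    rw [l1, l2, l3, harea] at hL
    have e : l ^ 4 * (4 * p2 ^ 2 * p3 ^ 2 - (p2 ^ 2 + p3 ^ 2 - p1 ^ 2) ^ 2) = l ^ 4 * 3 := by
      linear_combination hL
    exact mul_left_cancel₀ (by positivity) e
  have hf := HF' t1 t2 t3 ar
  have hσ := sigma_ge q1 q2 q3 hf
  by_cases c0 : P.k ≤ 2 * P.s * (p1 + p2 + p3)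
  · exact const_case hD P hl h1 h2 h3 c0
  push Not at c0
  by_cases c1 : (1 - 2 * P.z) * (2 * p2 * p3) ≤ p2 ^ 2 + p3 ^ 2 - p1 ^ 2
  · exact corner_case hD P hl h1 h2 h3 q1 q2 q3 c1
  push Not at c1
  by_cases c2 : (1 - 2 * P.z) * (2 * p3 * p1) ≤ p3 ^ 2 + p1 ^ 2 - p2 ^ 2
  · have := corner_case (A := B) (B := C) (C := A) hB P hl h2 h3 h1 q2 q3 q1 c2
    rw [cr_cyc A B C, tri_cyc] at this
    exact this
  push Not at c2
  by_cases c3 : (1 - 2 * P.z) * (2 * p1 * p2) ≤ p1 ^ 2 + p2 ^ 2 - p3 ^ 2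
  · have := corner_case (A := C) (B := A) (C := B) hC P hl h3 h1 h2 q3 q1 q2 c3
    rw [cr_cyc2 A B C, tri_cyc2] at this
    exact this
  push Not at c3
  have hr : p1 + p2 + p3 ≤ 3 * P.r := by
    have : 3 * P.r = P.k / (2 * P.s) := by unfold Par.r; field_simp; ring
    rw [this, le_div_iff₀ (by positivity)]
    linarith
  by_cases cz : P.z ≤ 1 / 6
  · exact tf_case hD P hl h1 h2 h3 one_pos one_pos one_pos
      (caseI hz cz P.r_lower P.r_upper P.w_r q1 q2 q3 hf hr)
  · push Not at cz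
    obtain ⟨a1, a2, a3, ha1, ha2, ha3, hQ⟩ := caseII cz.le hz4 P.w_pos.le (P.w_le_one cz.le) q1 q2 q3
      hσ ar c1.le c2.le c3.le
    exact tf_case hD P hl h1 h2 h3 ha1 ha2 ha3 hQ

theorem volume_otri {A B C : E2} (hD : cr (B - A) (C - A) ≠ 0) :
    (volume (interior (tri A B C))).toReal = |cr (B - A) (C - A)| / 2 := by
  rw [measure_congr (otri_ae A B C), ← area_tri A B C hD]
  simp [Measure.real]

theorem main {A B C A' B' C' : E2} (hT : AffineIndependent ℝ ![A, B, C])
    (hE : AffineIndependent ℝ ![A', B', C']) (e1 : dist A' B' = dist B' C') (e2 : dist B' C' = dist C' A')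
    (hvol : volume (interior (convexHull ℝ {A, B, C})) = volume (interior (convexHull ℝ {A', B', C'})))
    {α : ℝ} (hα : α < 0) :
    lam1 (interior (convexHull ℝ {A, B, C})) α ≤ lam1 (interior (convexHull ℝ {A', B', C'})) α := by
  rw [affineIndependent_iff_not_collinear_set] at hT hE
  have hD := cr_ne_of_not_collinear hT
  have hD' := cr_ne_of_not_collinear hE
  have hv : |cr (B - A) (C - A)| = |cr (B' - A') (C' - A')| := by
    have h1 := volume_otri hD
    have h2 := volume_otri hD'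
    have h3 : (volume (interior (tri A B C))).toReal = (volume (interior (tri A' B' C'))).toReal := by
      rw [show volume (interior (tri A B C)) = volume (interior (tri A' B' C')) from hvol]
    linarith
  obtain ⟨l, hl⟩ : ∃ l, l = dist A' B' := ⟨_, rfl⟩
  have hl0 : 0 < l := by rw [hl]; exact dist_pos.2 (ne_of_cr hD')
  have d1 : dist A' B' = l := hl.symm
  have d2 : dist B' C' = l := by rw [← e1]; exact d1
  have d3 : dist C' A' = l := by rw [← e2]; exact d2
  have ar' : cr (B' - A') (C' - A') ^ 2 = 3 / 4 * l ^ 4 := by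
    have hL := lagrange A' B' C'
    have l1 : sd (B' - C') = l ^ 2 := by rw [← norm_sq, ← dist_eq_norm, d2]
    have l2 : sd (C' - A') = l ^ 2 := by rw [← norm_sq, ← dist_eq_norm, d3]
    have l3 : sd (B' - A') = l ^ 2 := by rw [← norm_sq, ← dist_eq_norm, dist_comm, d1]
    rw [l1, l2, l3] at hL
    linear_combination (-1 / 4) * hL
  have ar : cr (B - A) (C - A) ^ 2 = 3 / 4 * l ^ 4 := by
    rw [← sq_abs, hv, sq_abs]; exact ar'
  obtain ⟨D, hDD⟩ : ∃ D, D = |cr (B' - A') (C' - A')| := ⟨_, rfl⟩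
  have hD0 : 0 < D := by rw [hDD]; exact abs_pos.2 hD'
  obtain ⟨P, hP⟩ := exists_par (c := -α * D / l) (by
    have : 0 < -α := by linarith
    positivity)
  have hα' : α = -(P.k * P.s * l / D) := by rw [hP]; field_simp
  have hup := upper hD P hl0 ar
  rw [hv, ← hDD, ← hα'] at hup
  have hlow : -(P.k * l / D) ^ 2 ≤ lam1 (interior (tri A' B' C')) α := by
    apply le_lam1 hD'
    intro u hu
    have := lower hD' P d1 d2 d3 hu
    rw [← hDD, ← hα'] at this
    exact this
  exact hup.trans hlow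

end Pool.Agent.Helper238.Rob
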